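import Mathlib

set_option autoImplicit false

open MeasureTheory

namespace Pool.Agent.V1171.HSH

variable {n : ℕ}

/-- `Ω ⊆ ℂⁿ` is Reinhardt: it is invariant under all rotations
`(z₁, …, zₙ) ↦ (e^{iθ₁} z₁, …, e^{iθₙ} zₙ)`. -/
def IsReinhardt (Ω : Set (Fin n → ℂ)) : Prop :=
  ∀ z ∈ Ω, ∀ θ : Fin n → ℝ, (fun j => Complex.exp (θ j * Complex.I) * z j) ∈ Ω

/-- `h` is (a representative of) an element of `L²(Ω)`, Lebesgue measure. -/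
def IsL2 (Ω : Set (Fin n → ℂ)) (h : (Fin n → ℂ) → ℂ) : Prop :=
  MemLp h 2 (volume.restrict Ω)

/-- `g` is an element of the Bergman space `A²(Ω)`: holomorphic and square integrable on `Ω`. -/
def IsBergman (Ω : Set (Fin n → ℂ)) (g : (Fin n → ℂ) → ℂ) : Prop :=
  DifferentiableOn ℂ g Ω ∧ IsL2 Ω g

/-- The inner product `∫_Ω conj(g) h` of `L²(Ω)`. -/
noncomputable def ip (Ω : Set (Fin n → ℂ)) (g h : (Fin n → ℂ) → ℂ) : ℂ :=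
  ∫ z in Ω, (starRingEnd ℂ) (g z) * h z

/-- The square `∫_Ω |h|²` of the norm of `L²(Ω)`. -/
noncomputable def nsq (Ω : Set (Fin n → ℂ)) (h : (Fin n → ℂ) → ℂ) : ℝ :=
  ∫ z in Ω, ‖h z‖ ^ 2

/-- `h = H_φ g = (I - P)(φ g)`, `P` the orthogonal projection of `L²(Ω)` onto `A²(Ω)`: `g` is in
`A²(Ω)`, and `φ g = h + k` on `Ω` with `h ∈ L²(Ω)` orthogonal to `A²(Ω)` and `k ∈ A²(Ω)`
(so `φ g ∈ L²(Ω)`). -/
def IsHankel (Ω : Set (Fin n → ℂ)) (φ g h : (Fin n → ℂ) → ℂ) : Prop :=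
  IsBergman Ω g ∧ IsL2 Ω h ∧ (∀ k, IsBergman Ω k → ip Ω k h = 0) ∧
    ∃ k, IsBergman Ω k ∧ ∀ z ∈ Ω, φ z * g z = h z + k z

/-- `(e_i)` is an orthonormal basis of `A²(Ω)`: an orthonormal family of elements of `A²(Ω)` for
which Parseval's identity holds. -/
def IsBasis (Ω : Set (Fin n → ℂ)) {ι : Type} (e : ι → (Fin n → ℂ) → ℂ) : Prop :=
  (∀ i, IsBergman Ω (e i)) ∧ (∀ i, ip Ω (e i) (e i) = 1) ∧ (∀ i j, i ≠ j → ip Ω (e i) (e j) = 0) ∧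
    ∀ g, IsBergman Ω g → HasSum (fun i => ‖ip Ω (e i) g‖ ^ 2) (nsq Ω g)

/-- `S` is (on representatives) a bounded linear operator from `A²(Ω)` to `L²(Ω)`. -/
def IsOperator (Ω : Set (Fin n → ℂ)) (S : ((Fin n → ℂ) → ℂ) → (Fin n → ℂ) → ℂ) : Prop :=
  (∀ g, IsBergman Ω g → IsL2 Ω (S g)) ∧
    (∀ g g', IsBergman Ω g → IsBergman Ω g' →
      ∀ᵐ z ∂volume.restrict Ω, S (fun w => g w + g' w) z = S g z + S g' z) ∧
    (∀ g, IsBergman Ω g → ∀ c : ℂ, ∀ᵐ z ∂volume.restrict Ω, S (fun w => c * g w) z = c * S g z) ∧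
    ∃ C : ℝ, ∀ g, IsBergman Ω g → nsq Ω (S g) ≤ C * nsq Ω g

/-- The Hankel operator `H_φ` is Hilbert-Schmidt: its domain is dense in `A²(Ω)`, and it extends to
a bounded operator `S : A²(Ω) → L²(Ω)` with `∑ ‖S e_i‖² < ∞` for an orthonormal basis `(e_i)` of
`A²(Ω)`. -/
def IsHilbertSchmidt (Ω : Set (Fin n → ℂ)) (φ : (Fin n → ℂ) → ℂ) : Prop :=
  (∀ g, IsBergman Ω g → ∀ ε : ℝ, 0 < ε →
    ∃ g' h', IsHankel Ω φ g' h' ∧ nsq Ω (fun z => g z - g' z) < ε) ∧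
  ∃ S : ((Fin n → ℂ) → ℂ) → (Fin n → ℂ) → ℂ, IsOperator Ω S ∧
    (∀ g h, IsHankel Ω φ g h → ∀ᵐ z ∂volume.restrict Ω, S g z = h z) ∧
    ∃ (ι : Type) (e : ι → (Fin n → ℂ) → ℂ), IsBasis Ω e ∧ Summable fun i => nsq Ω (S (e i))

end Pool.Agent.V1171.HSH
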