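import Mathlib
import Pool.Agent.V1171.HSH.FDefs

set_option autoImplicit false

open MeasureTheory

namespace Pool.Agent.V1171.HSH

variable {n : ℕ}

/-- The Bergman space `A²(Ω)`: the classes in `L²(Ω)` (Lebesgue measure) which contain a function
that is holomorphic on `Ω`. -/
def bergman (Ω : Set (Fin n → ℂ)) : Submodule ℂ (Lp ℂ 2 (volume.restrict Ω)) where
  carrier := {F | ∃ g : (Fin n → ℂ) → ℂ, DifferentiableOn ℂ g Ω ∧ F =ᵐ[volume.restrict Ω] g}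
  add_mem' := by
    rintro F G ⟨f, hf, hF⟩ ⟨g, hg, hG⟩
    refine ⟨f + g, hf.add hg, ?_⟩
    filter_upwards [hF, hG, Lp.coeFn_add F G] with z h1 h2 h3
    rw [h3, Pi.add_apply, Pi.add_apply, h1, h2]
  zero_mem' := ⟨0, differentiableOn_const 0, Lp.coeFn_zero ℂ 2 (volume.restrict Ω)⟩
  smul_mem' := by
    rintro c F ⟨f, hf, hF⟩
    refine ⟨c • f, hf.const_smul c, ?_⟩
    filter_upwards [hF, Lp.coeFn_smul c F] with z h1 h2
    rw [h2, Pi.smul_apply, Pi.smul_apply, h1]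

/-- `H = H_φ G`, the value at `G` of the Hankel operator with symbol `φ`: `G ∈ A²(Ω)`, and
`φ G = H + K` with `H ∈ L²(Ω)` orthogonal to `A²(Ω)` and `K ∈ A²(Ω)`; that is, `φ G ∈ L²(Ω)` and
`H = (I - P)(φ G)`, where `P` is the orthogonal projection onto `A²(Ω)`. -/
def IsHankelValue (Ω : Set (Fin n → ℂ)) (φ : (Fin n → ℂ) → ℂ)
    (G H : Lp ℂ 2 (volume.restrict Ω)) : Prop :=
  G ∈ bergman Ω ∧ H ∈ (bergman Ω)ᗮ ∧ ∃ K ∈ bergman Ω,
    (fun z => φ z * G z) =ᵐ[volume.restrict Ω] fun z => H z + K z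

/-- The Hankel operator `H_φ` is Hilbert-Schmidt: its domain is dense in `A²(Ω)`, and it extends to
a bounded operator `S : A²(Ω) → L²(Ω)` with `∑ ‖S b_i‖² < ∞` for an orthonormal basis `(b_i)` of
`A²(Ω)`. -/
def IsHilbertSchmidtHankel (Ω : Set (Fin n → ℂ)) (φ : (Fin n → ℂ) → ℂ) : Prop :=
  Dense {G : bergman Ω | ∃ H, IsHankelValue Ω φ (G : Lp ℂ 2 (volume.restrict Ω)) H} ∧
  ∃ S : bergman Ω →L[ℂ] Lp ℂ 2 (volume.restrict Ω),
    (∀ (G : bergman Ω) (H : Lp ℂ 2 (volume.restrict Ω)),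
      IsHankelValue Ω φ (G : Lp ℂ 2 (volume.restrict Ω)) H → S G = H) ∧
    ∃ (ι : Type) (b : HilbertBasis ι ℂ (bergman Ω)), Summable fun i => ‖S (b i)‖ ^ 2

end Pool.Agent.V1171.HSH
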