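import Mathlib
import Pool.Agent.Helper540.Holo
import Pool.Agent.V1171.HSH.Defs

set_option autoImplicit false

open MeasureTheory Set Metric Filter Topology Complex ComplexConjugate

namespace Pool.Agent.V1171.HSH

/-- Haar measure on the circle. -/
noncomputable local instance : MeasureSpace UnitAddCircle := ⟨AddCircle.haarAddCircle⟩
local instance : Measure.IsAddHaarMeasure (volume : Measure UnitAddCircle) :=
  inferInstanceAs (Measure.IsAddHaarMeasure AddCircle.haarAddCircle)
local instance : IsProbabilityMeasure (volume : Measure UnitAddCircle) :=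
  inferInstanceAs (IsProbabilityMeasure AddCircle.haarAddCircle)

open UnitAddTorus

variable {n : ℕ}

/-- Rotation. -/
noncomputable def rot (t : UnitAddTorus (Fin n)) (z : Fin n → ℂ) : Fin n → ℂ :=
  fun j => fourier 1 (t j) * z j

/-- Monomials with integer exponents. -/
noncomputable def mon (γ : Fin n → ℤ) (z : Fin n → ℂ) : ℂ := ∏ j, z j ^ γ j

/-- Points with nonzero coordinates. -/
def star (Ω : Set (Fin n → ℂ)) : Set (Fin n → ℂ) := {z | z ∈ Ω ∧ ∀ j, z j ≠ 0}

theorem norm_fourier (t : UnitAddCircle) : ‖(fourier 1 t : ℂ)‖ = 1 := by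
  rw [fourier_apply]; exact Circle.norm_coe _

theorem fourier_ne (t : UnitAddCircle) : (fourier 1 t : ℂ) ≠ 0 := by
  intro h
  have := norm_fourier t
  rw [h] at this
  simp at this

theorem rot_mem {Ω : Set (Fin n → ℂ)} (hR : IsReinhardt Ω) {z : Fin n → ℂ} (hz : z ∈ Ω)
    (t : UnitAddTorus (Fin n)) : rot t z ∈ Ω := by
  choose θ hθ using fun j => QuotientAddGroup.mk_surjective (t j)
  have := hR z hz (fun j => 2 * Real.pi * θ j)
  convert this using 1
  ext j
  rw [rot, ← hθ j]
  congr 1
  have h : ((QuotientAddGroup.mk (θ j) : UnitAddCircle)) = ((θ j : ℝ) : UnitAddCircle) := rfl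
  rw [h, fourier_coe_apply]
  congr 1
  push_cast
  ring

theorem rot_add (s t : UnitAddTorus (Fin n)) (z : Fin n → ℂ) : rot (s + t) z = rot s (rot t z) := by
  ext j
  simp only [rot, Pi.add_apply]
  rw [fourier_apply, fourier_apply, fourier_apply, one_zsmul, one_zsmul, one_zsmul,
    AddCircle.toCircle_add]
  push_cast
  ring

theorem rot_zero (z : Fin n → ℂ) : rot 0 z = z := by
  ext j
  simp [rot]

theorem rot_star {Ω : Set (Fin n → ℂ)} (hR : IsReinhardt Ω) {z : Fin n → ℂ} (hz : z ∈ star Ω)
    (t : UnitAddTorus (Fin n)) : rot t z ∈ star Ω :=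
  ⟨rot_mem hR hz.1 t, fun j => mul_ne_zero (fourier_ne _) (hz.2 j)⟩

theorem mon_rot (γ : Fin n → ℤ) (t : UnitAddTorus (Fin n)) (z : Fin n → ℂ) :
    mon γ (rot t z) = mFourier γ t * mon γ z := by
  simp only [mon, rot, mFourier, ContinuousMap.coe_mk, mul_zpow, Finset.prod_mul_distrib]
  congr 1
  apply Finset.prod_congr rfl
  intro j _
  rw [fourier_apply, fourier_apply, one_zsmul, AddCircle.toCircle_zsmul]
  push_cast
  rfl

theorem norm_rot_sub (t : UnitAddTorus (Fin n)) (z w : Fin n → ℂ) : ‖rot t z - rot t w‖ = ‖z - w‖ := by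
  have h : ∀ j, ‖(rot t z - rot t w) j‖ = ‖(z - w) j‖ := by
    intro j
    simp only [rot, Pi.sub_apply]
    rw [← mul_sub, norm_mul, norm_fourier, one_mul]
  rw [Pi.norm_def, Pi.norm_def]
  congr 1
  apply Finset.sup_congr rfl
  intro j _
  exact NNReal.eq (h j)

theorem continuous_rot : Continuous (fun p : UnitAddTorus (Fin n) × (Fin n → ℂ) => rot p.1 p.2) := by
  unfold rot
  fun_prop

theorem continuous_rot_left (z : Fin n → ℂ) : Continuous (fun t : UnitAddTorus (Fin n) => rot t z) :=
  continuous_rot.comp (by fun_prop : Continuous fun t : UnitAddTorus (Fin n) => (t, z))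

/-- Rotation as a linear map. -/
noncomputable def rotL (t : UnitAddTorus (Fin n)) : (Fin n → ℂ) →L[ℂ] (Fin n → ℂ) :=
  ContinuousLinearMap.pi fun j => (fourier 1 (t j) : ℂ) • ContinuousLinearMap.proj j

theorem rotL_apply (t : UnitAddTorus (Fin n)) (z : Fin n → ℂ) : rotL t z = rot t z := by
  ext j; simp [rotL, rot]

theorem measurePreserving_rot (t : UnitAddTorus (Fin n)) :
    MeasurePreserving (rot t) (volume : Measure (Fin n → ℂ)) volume := by
  have h : ∀ j : Fin n, MeasurePreserving (fun w : ℂ => (fourier 1 (t j) : ℂ) * w) volume volume := by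
    intro j
    have : (fun w : ℂ => (fourier 1 (t j) : ℂ) * w) = rotation ((1 : ℤ) • t j).toCircle := by
      ext w
      rw [rotation_apply, fourier_apply]
    rw [this]
    exact (rotation ((1 : ℤ) • t j).toCircle).measurePreserving
  exact volume_preserving_pi h

theorem rot_injective (t : UnitAddTorus (Fin n)) : Function.Injective (rot t) := by
  intro z w h
  have := norm_rot_sub t z w
  rw [h, sub_self, norm_zero] at this
  exact sub_eq_zero.mp (norm_eq_zero.mp this.symm)

theorem measurableEmbedding_rot (t : UnitAddTorus (Fin n)) : MeasurableEmbedding (rot t) :=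
  (continuous_rot.comp (by fun_prop : Continuous fun z : Fin n → ℂ => (t, z))).measurableEmbedding
    (rot_injective t)

theorem norm_mon_rot (γ : Fin n → ℤ) (t : UnitAddTorus (Fin n)) (z : Fin n → ℂ) :
    ‖mon γ (rot t z)‖ = ‖mon γ z‖ := by
  rw [mon_rot, norm_mul]
  have : ‖mFourier γ t‖ = 1 := by
    simp only [mFourier, ContinuousMap.coe_mk, norm_prod, fourier_apply, Circle.norm_coe,
      Finset.prod_const_one]
  rw [this, one_mul]

theorem setIntegral_rot {K : Set (Fin n → ℂ)} (hK : ∀ z ∈ K, ∀ t, rot t z ∈ K)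
    (F : (Fin n → ℂ) → ℂ) (t : UnitAddTorus (Fin n)) :
    ∫ z in K, F (rot t z) = ∫ z in K, F z := by
  have hpre : rot t ⁻¹' K = K := by
    ext z
    constructor
    · intro hz
      have := hK _ hz (-t)
      rwa [← rot_add, neg_add_cancel, rot_zero] at this
    · intro hz
      exact hK z hz t
  have := (measurePreserving_rot t).setIntegral_preimage_emb (measurableEmbedding_rot t) F K
  rwa [hpre] at this

/-- Averaging over the torus. -/
noncomputable def avg (β : Fin n → ℤ) (g : (Fin n → ℂ) → ℂ) (z : Fin n → ℂ) : ℂ :=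
  ∫ t : UnitAddTorus (Fin n), mFourier (-β) t * g (rot t z)

theorem integral_avg {K : Set (Fin n → ℂ)} (hKc : IsCompact K) (hK : ∀ z ∈ K, ∀ t, rot t z ∈ K)
    {g w : (Fin n → ℂ) → ℂ} (hg : ContinuousOn g K) (hw : ContinuousOn w K) (β : Fin n → ℤ)
    (hwt : ∀ z ∈ K, ∀ t, w (rot t z) = mFourier β t * w z) :
    ∫ z in K, g z * conj (w z) = ∫ z in K, avg β g z * conj (w z) := by
  have h1 : ∀ t : UnitAddTorus (Fin n), ∫ z in K, g z * conj (w z) =
      ∫ z in K, mFourier (-β) t * g (rot t z) * conj (w z) := by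
    intro t
    rw [← setIntegral_rot hK (fun z => g z * conj (w z)) t]
    apply setIntegral_congr_fun hKc.measurableSet
    intro z hz
    simp only
    rw [hwt z hz t, map_mul, mFourier_neg]
    ring
  have h2 : ∫ z in K, g z * conj (w z) =
      ∫ t : UnitAddTorus (Fin n), ∫ z in K, mFourier (-β) t * g (rot t z) * conj (w z) := by
    simp_rw [← h1]
    simp
  rw [h2]
  have hcont : ContinuousOn (fun p : UnitAddTorus (Fin n) × (Fin n → ℂ) =>
      mFourier (-β) p.1 * g (rot p.1 p.2) * conj (w p.2)) (univ ×ˢ K) := by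
    apply ContinuousOn.mul
    · apply ContinuousOn.mul
      · exact ((mFourier (-β)).continuous.comp continuous_fst).continuousOn
      · exact hg.comp continuous_rot.continuousOn (fun p hp => hK p.2 hp.2 p.1)
    · exact continuous_conj.comp_continuousOn (hw.comp continuousOn_snd (fun p hp => hp.2))
  have hint : Integrable (fun p : UnitAddTorus (Fin n) × (Fin n → ℂ) =>
      mFourier (-β) p.1 * g (rot p.1 p.2) * conj (w p.2))
      ((volume : Measure (UnitAddTorus (Fin n))).prod (volume.restrict K)) := by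
    have h3 := hcont.integrableOn_compact (μ := (volume : Measure (UnitAddTorus (Fin n))).prod
      (volume : Measure (Fin n → ℂ))) (isCompact_univ.prod hKc)
    rw [IntegrableOn, ← Measure.prod_restrict, Measure.restrict_univ] at h3
    exact h3
  rw [integral_integral_swap hint]
  apply integral_congr_ae
  filter_upwards with z
  rw [avg, integral_mul_const]

end Pool.Agent.V1171.HSH
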