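import Mathlib
import Pool.Agent.Helper540.Holo
import Pool.Agent.V1171.HSH.Torus

set_option autoImplicit false

open MeasureTheory Set Metric Filter Topology Complex ComplexConjugate

namespace Pool.Agent.V1171.HSH

noncomputable local instance : MeasureSpace UnitAddCircle := ⟨AddCircle.haarAddCircle⟩
local instance : Measure.IsAddHaarMeasure (volume : Measure UnitAddCircle) :=
  inferInstanceAs (Measure.IsAddHaarMeasure AddCircle.haarAddCircle)
local instance : IsProbabilityMeasure (volume : Measure UnitAddCircle) :=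
  inferInstanceAs (IsProbabilityMeasure AddCircle.haarAddCircle)

open UnitAddTorus

/-- Identity theorem in several variables. -/
theorem identity {E : Type*} [NormedAddCommGroup E] [NormedSpace ℂ E] {Ω : Set E} (ho : IsOpen Ω)
    (hc : IsPreconnected Ω) {G : E → ℂ} (hG : DifferentiableOn ℂ G Ω) {z0 : E} (hz0 : z0 ∈ Ω)
    (h : G =ᶠ[𝓝 z0] 0) : ∀ z ∈ Ω, G z = 0 := by
  set S : Set E := {z | G =ᶠ[𝓝 z] 0} with hS
  have hSo : IsOpen S := by
    rw [isOpen_iff_mem_nhds]
    intro z hz
    exact (eventually_eventually_nhds.mpr hz)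
  have hsub : Ω ⊆ S := by
    apply hc.subset_of_closure_inter_subset hSo ⟨z0, hz0, h⟩
    rintro p ⟨hp1, hp2⟩
    obtain ⟨R, hR, hball⟩ := Metric.isOpen_iff.mp ho p hp2
    obtain ⟨z1, hz1S, hz1⟩ := Metric.mem_closure_iff.mp hp1 (R / 3) (by linarith)
    have hz1' : ‖z1 - p‖ < R / 3 := by rw [← dist_eq_norm, dist_comm]; exact hz1
    have key : ∀ w ∈ ball z1 (R / 2), G w = 0 := by
      intro w hw
      have hw' : ‖w - z1‖ < R / 2 := by rw [← dist_eq_norm]; exact hw
      set φ : ℂ → ℂ := fun s => G (z1 + s • (w - z1)) with hφ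
      have hmem : ∀ s ∈ ball (0 : ℂ) (4 / 3), z1 + s • (w - z1) ∈ Ω := by
        intro s hs
        rw [mem_ball_zero_iff] at hs
        apply hball
        rw [mem_ball, dist_eq_norm]
        calc ‖z1 + s • (w - z1) - p‖ = ‖(z1 - p) + s • (w - z1)‖ := by congr 1; abel
          _ ≤ ‖z1 - p‖ + ‖s • (w - z1)‖ := norm_add_le _ _
          _ < R / 3 + 4 / 3 * (R / 2) := by
              rw [norm_smul]
              have : ‖s‖ * ‖w - z1‖ ≤ 4 / 3 * (R / 2) :=
                mul_le_mul hs.le hw'.le (norm_nonneg _) (by norm_num)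
              linarith
          _ = R := by ring
      have hφd : DifferentiableOn ℂ φ (ball 0 (4 / 3)) := by
        apply hG.comp _ hmem
        fun_prop
      have hφa : AnalyticOnNhd ℂ φ (ball 0 (4 / 3)) := hφd.analyticOnNhd isOpen_ball
      have h0 : (0 : ℂ) ∈ ball (0 : ℂ) (4 / 3) := mem_ball_self (by norm_num)
      have hφ0 : φ =ᶠ[𝓝 0] 0 := by
        have hcont : Tendsto (fun s : ℂ => z1 + s • (w - z1)) (𝓝 0) (𝓝 z1) := by
          have : Continuous (fun s : ℂ => z1 + s • (w - z1)) := by fun_prop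
          simpa using this.tendsto 0
        exact hcont.eventually hz1S
      have h1 := hφa.eqOn_zero_of_preconnected_of_eventuallyEq_zero
        (convex_ball (0 : ℂ) (4 / 3)).isPreconnected h0 hφ0
      have h2 : (1 : ℂ) ∈ ball (0 : ℂ) (4 / 3) := by rw [mem_ball_zero_iff]; norm_num
      have h3 := h1 h2
      simpa [hφ] using h3
    have hpmem : p ∈ ball z1 (R / 2) := by
      rw [mem_ball, dist_comm, dist_eq_norm]; linarith
    show G =ᶠ[𝓝 p] 0
    filter_upwards [isOpen_ball.mem_nhds hpmem] with w hw using key w hw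
  intro z hz
  exact (hsub hz).self_of_nhds

variable {n : ℕ}

theorem norm_rotL_le (t : UnitAddTorus (Fin n)) : ‖rotL t‖ ≤ 1 := by
  apply ContinuousLinearMap.opNorm_le_bound _ zero_le_one
  intro z
  have := norm_rot_sub t z 0
  have h0 : rot t (0 : Fin n → ℂ) = 0 := by ext j; simp [rot]
  rw [h0, sub_zero, sub_zero] at this
  rw [rotL_apply, this, one_mul]

theorem continuous_rotL : Continuous (fun t : UnitAddTorus (Fin n) => rotL t) := by
  rw [continuous_clm_apply]
  intro z
  simp_rw [rotL_apply]
  exact continuous_rot_left z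

theorem norm_mFourier_apply (β : Fin n → ℤ) (t : UnitAddTorus (Fin n)) : ‖mFourier β t‖ = 1 := by
  simp only [mFourier, ContinuousMap.coe_mk, norm_prod, fourier_apply, Circle.norm_coe,
      Finset.prod_const_one]

theorem continuous_g_rot {Ω : Set (Fin n → ℂ)} (hR : IsReinhardt Ω) {g : (Fin n → ℂ) → ℂ}
    (hg : ContinuousOn g Ω) {z : Fin n → ℂ} (hz : z ∈ Ω) :
    Continuous (fun t : UnitAddTorus (Fin n) => g (rot t z)) :=
  hg.comp_continuous (continuous_rot_left z) (fun t => rot_mem hR hz t)

theorem avg_differentiableOn {Ω : Set (Fin n → ℂ)} (ho : IsOpen Ω) (hR : IsReinhardt Ω)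
    {g : (Fin n → ℂ) → ℂ} (hg : DifferentiableOn ℂ g Ω) (β : Fin n → ℤ) :
    DifferentiableOn ℂ (avg β g) Ω := by
  intro z0 hz0
  -- the orbit
  set O : Set (Fin n → ℂ) := range (fun t : UnitAddTorus (Fin n) => rot t z0) with hO
  have hOc : IsCompact O := isCompact_range (continuous_rot_left z0)
  have hOΩ : O ⊆ Ω := by rintro _ ⟨t, rfl⟩; exact rot_mem hR hz0 t
  obtain ⟨R, hR0, hthick⟩ := hOc.exists_cthickening_subset_open ho hOΩ
  have hcomp : IsCompact (cthickening R O) := hOc.cthickening
  obtain ⟨M, hM⟩ := hcomp.exists_bound_of_continuousOn (hg.continuousOn.mono hthick)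
  have hballsub : ∀ t : UnitAddTorus (Fin n), ball (rot t z0) R ⊆ cthickening R O := by
    intro t
    exact (ball_subset_thickening (mem_range_self t) R).trans (thickening_subset_cthickening R O)
  have hfd : ∀ t : UnitAddTorus (Fin n), ∀ z ∈ ball z0 (R / 2),
      ‖fderiv ℂ g (rot t z)‖ ≤ 4 * M / R := by
    intro t z hz
    apply Pool.Agent.Helper540.norm_fderiv_le_half (c := rot t z0)
      (hg.mono ((hballsub t).trans hthick)) (fun w hw => hM w (hballsub t hw))
    rw [mem_ball, dist_eq_norm, norm_rot_sub, ← dist_eq_norm]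
    exact hz
  have hmemΩ : ∀ t : UnitAddTorus (Fin n), ∀ z ∈ ball z0 (R / 2), rot t z ∈ Ω := by
    intro t z hz
    apply hthick
    apply hballsub t
    rw [mem_ball, dist_eq_norm, norm_rot_sub, ← dist_eq_norm]
    have : dist z z0 < R / 2 := hz
    linarith
  have hzmemΩ : ∀ z ∈ ball z0 (R / 2), z ∈ Ω := by
    intro z hz
    have := hmemΩ 0 z hz
    rwa [rot_zero] at this
  have hcont : ContinuousOn (fderiv ℂ g) Ω :=
    (Pool.Agent.Helper540.contDiffOn_of_differentiableOn ho hg 1).continuousOn_fderiv_of_isOpen ho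
      (by norm_num)
  have hbnhds : ball z0 (R / 2) ∈ 𝓝 z0 := ball_mem_nhds z0 (by linarith)
  have hFc : ∀ z ∈ Ω, Continuous (fun t : UnitAddTorus (Fin n) => mFourier (-β) t * g (rot t z)) :=
    fun z hz => (mFourier (-β)).continuous.mul (continuous_g_rot hR hg.continuousOn hz)
  have key := hasFDerivAt_integral_of_dominated_of_fderiv_le (𝕜 := ℂ)
    (μ := (volume : Measure (UnitAddTorus (Fin n))))
    (F := fun z t => mFourier (-β) t * g (rot t z))
    (F' := fun z t => mFourier (-β) t • (fderiv ℂ g (rot t z)).comp (rotL t))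
    (x₀ := z0) (s := ball z0 (R / 2)) (bound := fun _ => 4 * M / R) hbnhds
    (by
      filter_upwards [hbnhds] with z hz
      exact (hFc z (hzmemΩ z hz)).aestronglyMeasurable)
    ((hFc z0 hz0).integrable_of_hasCompactSupport (HasCompactSupport.of_compactSpace _))
    (by
      apply Continuous.aestronglyMeasurable
      apply Continuous.smul (mFourier (-β)).continuous
      apply Continuous.clm_comp
      · exact hcont.comp_continuous (continuous_rot_left z0) (fun t => rot_mem hR hz0 t)
      · exact continuous_rotL)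
    (by
      filter_upwards with t z hz
      rw [norm_smul, norm_mFourier_apply, one_mul]
      calc ‖(fderiv ℂ g (rot t z)).comp (rotL t)‖ ≤ ‖fderiv ℂ g (rot t z)‖ * ‖rotL t‖ :=
            ContinuousLinearMap.opNorm_comp_le _ _
        _ ≤ (4 * M / R) * 1 := by
            apply mul_le_mul (hfd t z hz) (norm_rotL_le t) (norm_nonneg _)
            exact (norm_nonneg _).trans (hfd t z hz)
        _ = 4 * M / R := mul_one _)
    (integrable_const _)
    (by
      filter_upwards with t z hz
      have h1 : HasFDerivAt (fun w => rot t w) (rotL t) z := by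
        have : (fun w => rot t w) = fun w => rotL t w := by ext1 w; rw [rotL_apply]
        rw [this]
        exact (rotL t).hasFDerivAt
      have h2 : HasFDerivAt g (fderiv ℂ g (rot t z)) (rot t z) :=
        (hg.differentiableAt (ho.mem_nhds (hmemΩ t z hz))).hasFDerivAt
      have h3 := (h2.comp z h1).const_smul (mFourier (-β) t)
      exact h3)
  exact key.differentiableAt.differentiableWithinAt

theorem avg_rot (β : Fin n → ℤ) (g : (Fin n → ℂ) → ℂ) (s : UnitAddTorus (Fin n))
    (z : Fin n → ℂ) : avg β g (rot s z) = mFourier β s * avg β g z := by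
  have h1 : avg β g (rot s z) = ∫ t : UnitAddTorus (Fin n),
      mFourier β s * (mFourier (-β) (t + s) * g (rot (t + s) z)) := by
    rw [avg]
    apply integral_congr_ae
    filter_upwards with t
    rw [rot_add]
    have h2 : mFourier (-β) (t + s) = mFourier (-β) t * mFourier (-β) s := by
      simp only [mFourier, ContinuousMap.coe_mk, Pi.add_apply, ← Finset.prod_mul_distrib]
      apply Finset.prod_congr rfl
      intro j _
      rw [fourier_apply, fourier_apply, fourier_apply, smul_add, AddCircle.toCircle_add]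
      push_cast
      rfl
    have h3 : mFourier β s * mFourier (-β) s = 1 := by
      rw [← mFourier_add, add_neg_cancel, mFourier_zero]; rfl
    rw [h2]
    calc mFourier (-β) t * g (rot t (rot s z)) =
        (mFourier β s * mFourier (-β) s) * (mFourier (-β) t * g (rot t (rot s z))) := by
          rw [h3, one_mul]
      _ = _ := by ring
  rw [h1, integral_const_mul, avg]
  congr 1
  exact integral_add_right_eq_self (fun t : UnitAddTorus (Fin n) => mFourier (-β) t * g (rot t z)) s

theorem isOpen_star {Ω : Set (Fin n → ℂ)} (ho : IsOpen Ω) : IsOpen (star Ω) := by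
  have : star Ω = Ω ∩ ⋂ j, {z : Fin n → ℂ | z j ≠ 0} := by
    ext z; simp [star]
  rw [this]
  apply ho.inter
  apply isOpen_iInter_of_finite
  intro j
  exact isOpen_ne_fun (continuous_apply j) continuous_const

theorem rot_single (j : Fin n) (θ : ℝ) (z : Fin n → ℂ) :
    rot (Pi.single j (θ : UnitAddCircle)) z =
      z + Pi.single j ((Complex.exp (2 * Real.pi * Complex.I * θ) - 1) * z j) := by
  ext i
  by_cases h : i = j
  · subst h
    simp only [rot, Pi.single_eq_same, Pi.add_apply]
    rw [fourier_coe_apply]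
    have : 2 * (Real.pi : ℂ) * Complex.I * ((1 : ℤ) : ℂ) * θ / ((1 : ℝ) : ℂ) =
      2 * Real.pi * Complex.I * θ := by push_cast; ring
    rw [this]
    ring
  · simp only [rot, Pi.single_eq_of_ne h, Pi.add_apply]
    simp

/-- A holomorphic function invariant under rotations has zero derivative off the hyperplanes. -/
theorem fderiv_zero_of_invariant {B : (Fin n → ℂ) → ℂ} {z : Fin n → ℂ} (hB : DifferentiableAt ℂ B z)
    (hz : ∀ j, z j ≠ 0) (hinv : ∀ t, B (rot t z) = B z) : fderiv ℂ B z = 0 := by
  have key : ∀ j : Fin n, fderiv ℂ B z (Pi.single j 1) = 0 := by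
    intro j
    have hpath : HasDerivAt (fun θ : ℝ => z + (Pi.single j ((Complex.exp (2 * Real.pi * Complex.I * θ) - 1) * z j) : Fin n → ℂ))
        (Pi.single j (2 * Real.pi * Complex.I * z j)) 0 := by
      apply HasDerivAt.const_add
      have h1 : HasDerivAt (fun θ : ℝ => (Complex.exp (2 * Real.pi * Complex.I * θ) - 1) * z j)
          (2 * Real.pi * Complex.I * z j) 0 := by
        have h2 : HasDerivAt (fun θ : ℂ => (Complex.exp (2 * Real.pi * Complex.I * θ) - 1) * z j)
            (2 * Real.pi * Complex.I * z j) ((0 : ℝ) : ℂ) := by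
          have := (((hasDerivAt_id ((0 : ℝ) : ℂ)).const_mul (2 * Real.pi * Complex.I)).cexp.sub_const 1).mul_const (z j)
          simpa using this
        exact h2.comp_ofReal
      rw [hasDerivAt_pi]
      intro i
      by_cases h : i = j
      · subst h
        simpa using h1
      · simp only [Pi.single_eq_of_ne h]
        exact hasDerivAt_const _ _
    have hz0 : z + (Pi.single j ((Complex.exp (2 * Real.pi * Complex.I * ((0 : ℝ) : ℂ)) - 1) * z j) : Fin n → ℂ) = z := by
      simp
    have hB' : HasFDerivAt B ((fderiv ℂ B z).restrictScalars ℝ)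
        (z + (Pi.single j ((Complex.exp (2 * Real.pi * Complex.I * ((0 : ℝ) : ℂ)) - 1) * z j) : Fin n → ℂ)) := by
      rw [hz0]; exact hB.hasFDerivAt.restrictScalars ℝ
    have h3 := hB'.comp_hasDerivAt (0 : ℝ) hpath
    have h4 : (B ∘ fun θ : ℝ => z + (Pi.single j ((Complex.exp (2 * Real.pi * Complex.I * θ) - 1) * z j) : Fin n → ℂ))
        = fun _ => B z := by
      ext θ
      simp only [Function.comp_apply]
      rw [← rot_single, hinv]
    rw [h4] at h3
    have h5 := h3.unique (hasDerivAt_const (0 : ℝ) (B z))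
    have h6 : (Pi.single j (2 * Real.pi * Complex.I * z j) : Fin n → ℂ) =
        (2 * Real.pi * Complex.I * z j) • (Pi.single j 1 : Fin n → ℂ) := by
      ext i
      by_cases h : i = j
      · subst h; simp
      · simp [h]
    rw [ContinuousLinearMap.coe_restrictScalars', h6, map_smul, smul_eq_mul] at h5
    have h7 : (2 * Real.pi * Complex.I * z j : ℂ) ≠ 0 := by
      have := hz j
      have := Real.pi_ne_zero
      simp [*]
    exact (mul_eq_zero.mp h5).resolve_left h7
  ext v
  have hv : v = ∑ j, v j • (Pi.single j 1 : Fin n → ℂ) := by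
    ext i
    simp [Finset.sum_apply, Pi.single_apply]
  rw [hv, map_sum]
  simp only [map_smul, key, smul_zero, Finset.sum_const_zero]
  simp

theorem prod_differentiableAt {E : Type*} [NormedAddCommGroup E] [NormedSpace ℂ E] {ι : Type*}
    (s : Finset ι) {f : ι → E → ℂ} {z : E} (h : ∀ i ∈ s, DifferentiableAt ℂ (f i) z) :
    DifferentiableAt ℂ (fun z => ∏ i ∈ s, f i z) z := by
  classical
  induction s using Finset.induction_on with
  | empty => simp
  | insert a s ha ih =>
    have h1 : (fun z => ∏ i ∈ insert a s, f i z) = fun z => f a z * ∏ i ∈ s, f i z := by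
      ext z; rw [Finset.prod_insert ha]
    rw [h1]
    exact (h a (Finset.mem_insert_self a s)).mul
      (ih (fun i hi => h i (Finset.mem_insert_of_mem hi)))

theorem mon_differentiableAt (γ : Fin n → ℤ) {z : Fin n → ℂ} (hz : ∀ j, z j ≠ 0) :
    DifferentiableAt ℂ (mon γ) z := by
  unfold mon
  apply prod_differentiableAt
  intro j _
  have h1 : DifferentiableAt ℂ (fun w : ℂ => w ^ γ j) (z j) := differentiableAt_zpow.mpr (Or.inl (hz j))
  have h2 : DifferentiableAt ℂ (fun z : Fin n → ℂ => z j) z := differentiableAt_apply j z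
  exact h1.comp z h2

/-- Monomials with natural exponents. -/
noncomputable def nmon (a : Fin n → ℕ) (z : Fin n → ℂ) : ℂ := ∏ j, z j ^ a j

theorem nmon_differentiable (a : Fin n → ℕ) : Differentiable ℂ (nmon a) := by
  intro z
  unfold nmon
  apply prod_differentiableAt
  intro j _
  exact (differentiableAt_apply j z).pow _

theorem mon_mul_nmon (β : Fin n → ℤ) {z : Fin n → ℂ} (hz : ∀ j, z j ≠ 0) :
    mon β z * nmon (fun j => (-β j).toNat) z = nmon (fun j => (β j).toNat) z := by
  simp only [mon, nmon, ← Finset.prod_mul_distrib]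
  apply Finset.prod_congr rfl
  intro j _
  rw [← zpow_natCast, ← zpow_natCast, ← zpow_add₀ (hz j)]
  congr 1
  omega

theorem mon_neg (β : Fin n → ℤ) (z : Fin n → ℂ) : mon (-β) z = (mon β z)⁻¹ := by
  simp [mon, Finset.prod_inv_distrib]

theorem mon_ne (β : Fin n → ℤ) {z : Fin n → ℂ} (hz : ∀ j, z j ≠ 0) : mon β z ≠ 0 := by
  unfold mon
  exact Finset.prod_ne_zero_iff.mpr (fun j _ => zpow_ne_zero _ (hz j))

/-- Perturb the vanishing coordinates other than `j`. -/
theorem exists_perturb {Ω : Set (Fin n → ℂ)} (ho : IsOpen Ω) {p : Fin n → ℂ} (hp : p ∈ Ω)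
    (J : Set (Fin n)) : ∃ q ∈ Ω, (∀ j ∈ J, q j = p j) ∧ ∀ j ∉ J, q j ≠ 0 := by
  classical
  obtain ⟨R, hR, hball⟩ := Metric.isOpen_iff.mp ho p hp
  refine ⟨fun j => if j ∈ J then p j else if p j = 0 then ((R / 2 : ℝ) : ℂ) else p j, ?_, ?_, ?_⟩
  · apply hball
    rw [mem_ball, dist_pi_lt_iff hR]
    intro j
    by_cases hj : j ∈ J
    · simp [hj, hR]
    · by_cases hpj : p j = 0
      · simp only [hj, hpj, if_true, if_false]
        rw [dist_zero_right, norm_real, Real.norm_eq_abs, abs_of_pos (by linarith)]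
        linarith
      · simp [hj, hpj, hR]
  · intro j hj
    simp [hj]
  · intro j hj
    by_cases hpj : p j = 0
    · simp only [hj, hpj, if_true, if_false]
      have : (R / 2 : ℝ) ≠ 0 := by linarith
      exact_mod_cast this
    · simp [hj, hpj]

theorem star_nonempty {Ω : Set (Fin n → ℂ)} (ho : IsOpen Ω) (hne : Ω.Nonempty) :
    (star Ω).Nonempty := by
  obtain ⟨p, hp⟩ := hne
  obtain ⟨q, hq, -, h⟩ := exists_perturb ho hp ∅
  exact ⟨q, hq, fun j => h j (by simp)⟩

/-- `z^γ` is holomorphic on `Ω`. -/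
def Hol (Ω : Set (Fin n → ℂ)) (γ : Fin n → ℤ) : Prop := ∀ j, (∃ p ∈ Ω, p j = 0) → 0 ≤ γ j

/-- Weight components of holomorphic functions are multiples of monomials. -/
theorem avg_eq {Ω : Set (Fin n → ℂ)} (ho : IsOpen Ω) (hc : IsConnected Ω) (hR : IsReinhardt Ω)
    {g : (Fin n → ℂ) → ℂ} (hg : DifferentiableOn ℂ g Ω) (β : Fin n → ℤ) :
    ∃ c : ℂ, (∀ z ∈ star Ω, avg β g z = c * mon β z) ∧ (¬ Hol Ω β → c = 0) := by
  obtain ⟨z0, hz0⟩ := star_nonempty ho hc.nonempty
  have hA := avg_differentiableOn ho hR hg β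
  have hso := isOpen_star ho
  set B : (Fin n → ℂ) → ℂ := fun z => avg β g z * mon (-β) z with hB
  have hBd : DifferentiableOn ℂ B (star Ω) := by
    intro z hz
    exact ((hA.differentiableAt (ho.mem_nhds hz.1)).mul
      (mon_differentiableAt _ hz.2)).differentiableWithinAt
  have hBinv : ∀ z, ∀ t, B (rot t z) = B z := by
    intro z t
    simp only [hB]
    rw [avg_rot, mon_rot]
    have h3 : mFourier β t * mFourier (-β) t = 1 := by
      rw [← mFourier_add, add_neg_cancel, mFourier_zero]; rfl
    calc mFourier β t * avg β g z * (mFourier (-β) t * mon (-β) z) =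
        (mFourier β t * mFourier (-β) t) * (avg β g z * mon (-β) z) := by ring
      _ = _ := by rw [h3, one_mul]
  have hBf : ∀ z ∈ star Ω, fderiv ℂ B z = 0 := fun z hz =>
    fderiv_zero_of_invariant (hBd.differentiableAt (hso.mem_nhds hz)) hz.2 (hBinv z)
  obtain ⟨r, hr, hball⟩ := Metric.isOpen_iff.mp hso z0 hz0
  set c := B z0 with hcdef
  have hBc : ∀ z ∈ ball z0 r, B z = c := by
    intro z hz
    exact isOpen_ball.is_const_of_fderiv_eq_zero (convex_ball z0 r).isPreconnected
      (hBd.mono hball) (fun w hw => hBf w (hball hw)) hz (mem_ball_self hr)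
  -- identity theorem
  set G : (Fin n → ℂ) → ℂ := fun z => avg β g z * nmon (fun j => (-β j).toNat) z -
    c * nmon (fun j => (β j).toNat) z with hG
  have hGd : DifferentiableOn ℂ G Ω :=
    (hA.mul (nmon_differentiable _).differentiableOn).sub
      ((nmon_differentiable _).differentiableOn.const_mul c)
  have hloc : ∀ z : Fin n → ℂ, (∀ j, z j ≠ 0) → B z = c → G z = 0 := by
    intro z hz hBz
    simp only [hG]
    rw [← mon_mul_nmon β hz, ← hBz]
    simp only [hB, mon_neg]
    have := mon_ne β hz
    field_simp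
    ring
  have hG0 : G =ᶠ[𝓝 z0] 0 := by
    filter_upwards [isOpen_ball.mem_nhds (mem_ball_self hr)] with z hz
    exact hloc z (hball hz).2 (hBc z hz)
  have hGz := identity ho hc.isPreconnected hGd hz0.1 hG0
  refine ⟨c, ?_, ?_⟩
  · intro z hz
    have h1 := hGz z hz.1
    simp only [hG] at h1
    rw [← mon_mul_nmon β hz.2, sub_eq_zero] at h1
    have h2 : nmon (fun j => (-β j).toNat) z ≠ 0 :=
      Finset.prod_ne_zero_iff.mpr (fun j _ => pow_ne_zero _ (hz.2 j))
    have h3 : avg β g z * nmon (fun j => (-β j).toNat) z =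
        (c * mon β z) * nmon (fun j => (-β j).toNat) z := by rw [h1]; ring
    exact mul_right_cancel₀ h2 h3
  · intro hnh
    simp only [Hol, not_forall, not_le] at hnh
    obtain ⟨j, ⟨p, hp, hpj⟩, hβj⟩ := hnh
    obtain ⟨q, hq, hq1, hq2⟩ := exists_perturb ho hp {j}
    have hqj : q j = 0 := by rw [hq1 j rfl, hpj]
    have h1 := hGz q hq
    simp only [hG] at h1
    have h2 : nmon (fun j => (-β j).toNat) q = 0 := by
      apply Finset.prod_eq_zero (Finset.mem_univ j)
      have h5 : (-β j).toNat ≠ 0 := by omega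
      show q j ^ (-β j).toNat = 0
      rw [hqj, zero_pow h5]
    have h3 : nmon (fun j => (β j).toNat) q ≠ 0 := by
      apply Finset.prod_ne_zero_iff.mpr
      intro i _
      by_cases hij : i = j
      · subst hij
        have : (β i).toNat = 0 := by omega
        show q i ^ (β i).toNat ≠ 0
        rw [this, pow_zero]
        exact one_ne_zero
      · exact pow_ne_zero _ (hq2 i (by simpa using hij))
    rw [h2, mul_zero, zero_sub, neg_eq_zero] at h1
    exact (mul_eq_zero.mp h1).resolve_right h3

end Pool.Agent.V1171.HSH
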