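import Mathlib
import Pool.Agent.V1171.HSH.Laurent

set_option autoImplicit false

open MeasureTheory Set Metric Filter Topology Complex ComplexConjugate

namespace Pool.Agent.V1171.HSH

noncomputable local instance : MeasureSpace UnitAddCircle := ⟨AddCircle.haarAddCircle⟩
local instance : Measure.IsAddHaarMeasure (volume : Measure UnitAddCircle) :=
  inferInstanceAs (Measure.IsAddHaarMeasure AddCircle.haarAddCircle)
local instance : IsProbabilityMeasure (volume : Measure UnitAddCircle) :=
  inferInstanceAs (IsProbabilityMeasure AddCircle.haarAddCircle)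

open UnitAddTorus

variable {n : ℕ}

theorem memLp_indicator {Ω K : Set (Fin n → ℂ)} (hKc : IsCompact K) (hKΩ : K ⊆ Ω)
    {u : (Fin n → ℂ) → ℂ} (hu : ContinuousOn u K) :
    MemLp (K.indicator u) 2 (volume.restrict Ω) := by
  rw [memLp_indicator_iff_restrict hKc.measurableSet, Measure.restrict_restrict hKc.measurableSet,
    inter_eq_left.mpr hKΩ]
  obtain ⟨C, hC⟩ := hKc.exists_bound_of_continuousOn hu
  have hfin : IsFiniteMeasure ((volume : Measure (Fin n → ℂ)).restrict K) :=
    ⟨by rw [Measure.restrict_apply_univ]; exact hKc.measure_lt_top⟩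
  apply MemLp.of_bound (hu.aestronglyMeasurable hKc.measurableSet) C
  filter_upwards [ae_restrict_mem hKc.measurableSet] with z hz using hC z hz

theorem inner_indicator {Ω K : Set (Fin n → ℂ)} (hKc : IsCompact K) (hKΩ : K ⊆ Ω)
    {u : (Fin n → ℂ) → ℂ} (hu : ContinuousOn u K) (G : Lp ℂ 2 (volume.restrict Ω)) :
    inner ℂ ((memLp_indicator hKc hKΩ hu).toLp _) G = ∫ z in K, G z * conj (u z) := by
  rw [L2.inner_def]
  have h1 : ∫ z in Ω, inner ℂ (((memLp_indicator hKc hKΩ hu).toLp (K.indicator u) : _ → ℂ) z) (G z) =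
      ∫ z in Ω, K.indicator (fun z => G z * conj (u z)) z := by
    apply integral_congr_ae
    filter_upwards [(memLp_indicator hKc hKΩ hu).coeFn_toLp] with z hz
    rw [hz]
    by_cases hzK : z ∈ K
    · simp only [indicator_of_mem hzK, RCLike.inner_apply]
    · simp only [indicator_of_notMem hzK, inner_zero_left]
  rw [h1, integral_indicator hKc.measurableSet, Measure.restrict_restrict hKc.measurableSet,
    inter_eq_left.mpr hKΩ]

theorem setIntegral_congr_bergman {Ω K : Set (Fin n → ℂ)} (hKΩ : K ⊆ Ω) {F g u : (Fin n → ℂ) → ℂ}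
    (h : F =ᵐ[volume.restrict Ω] g) : ∫ z in K, F z * conj (u z) = ∫ z in K, g z * conj (u z) := by
  apply integral_congr_ae
  filter_upwards [ae_restrict_of_ae_restrict_of_subset hKΩ h] with z hz
  rw [hz]

theorem mon_continuousOn (γ : Fin n → ℤ) {Ω K : Set (Fin n → ℂ)} (hK : K ⊆ star Ω) :
    ContinuousOn (mon γ) K := fun z hz =>
  (mon_differentiableAt γ (hK hz).2).continuousAt.continuousWithinAt

/-- The core lower bound. -/
theorem core {Ω : Set (Fin n → ℂ)} (ho : IsOpen Ω) (hc : IsConnected Ω) (hR : IsReinhardt Ω)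
    {f : (Fin n → ℂ) → ℂ} (hf : DifferentiableOn ℂ f Ω)
    (hdense : Dense {G : bergman Ω | ∃ H, IsHankelValue Ω (fun z => conj (f z))
      (G : Lp ℂ 2 (volume.restrict Ω)) H})
    (S : bergman Ω →L[ℂ] Lp ℂ 2 (volume.restrict Ω))
    (hS : ∀ (G : bergman Ω) (H : Lp ℂ 2 (volume.restrict Ω)),
      IsHankelValue Ω (fun z => conj (f z)) (G : Lp ℂ 2 (volume.restrict Ω)) H → S G = H)
    {α γ : Fin n → ℤ} {a : ℂ} (ha : ∀ z ∈ star Ω, avg α f z = a * mon α z)
    (e : bergman Ω) (he : (e : Lp ℂ 2 (volume.restrict Ω)) =ᵐ[volume.restrict Ω] mon γ)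
    {K : Set (Fin n → ℂ)} (hKc : IsCompact K) (hKs : K ⊆ star Ω) (hKr : ∀ z ∈ K, ∀ t, rot t z ∈ K)
    (c : ℂ)
    (hcc : (∫ z in K, (conj (mon α z) * mon γ z - c * mon (γ - α) z) * conj (mon (γ - α) z) = 0) ∨
      (¬ Hol Ω (γ - α) ∧ c = 0)) :
    ‖a‖ ^ 2 * ∫ z in K, ‖conj (mon α z) * mon γ z - c * mon (γ - α) z‖ ^ 2 ≤ ‖S e‖ ^ 2 := by
  set β := γ - α with hβ
  set h0 : (Fin n → ℂ) → ℂ := fun z => conj (mon α z) * mon γ z - c * mon β z with hh0
  have hKΩ : K ⊆ Ω := fun z hz => (hKs hz).1
  have hmc : ∀ δ, ContinuousOn (mon δ) K := fun δ => mon_continuousOn δ hKs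
  have hh0c : ContinuousOn h0 K :=
    ((continuous_conj.comp_continuousOn (hmc α)).mul (hmc γ)).sub (continuousOn_const.mul (hmc β))
  have hfc : ContinuousOn f K := hf.continuousOn.mono hKΩ
  -- weights
  have hwα : ∀ t : UnitAddTorus (Fin n), conj (mFourier α t) * mFourier γ t = mFourier β t := by
    intro t
    rw [← mFourier_neg, ← mFourier_add, hβ]
    congr 2
    abel
  have hh0w : ∀ z ∈ K, ∀ t, h0 (rot t z) = mFourier β t * h0 z := by
    intro z _ t
    simp only [hh0]
    rw [mon_rot, mon_rot, mon_rot, map_mul, mul_sub, ← hwα]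
    ring
  -- vectors
  set h : Lp ℂ 2 (volume.restrict Ω) := (memLp_indicator hKc hKΩ hh0c).toLp _ with hh
  have hfh0c : ContinuousOn (fun z => f z * h0 z) K := hfc.mul hh0c
  set h1 : Lp ℂ 2 (volume.restrict Ω) := (memLp_indicator hKc hKΩ hfh0c).toLp _ with hh1
  -- I = ∫ |h0|²
  set J : ℝ := ∫ z in K, ‖h0 z‖ ^ 2 with hJ
  have hJ0 : 0 ≤ J := integral_nonneg (fun _ => by positivity)
  have hnorm : ‖h‖ ^ 2 = J := by
    have e1 : inner ℂ h h = ∫ z in K, h z * conj (h0 z) := inner_indicator hKc hKΩ hh0c h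
    have e2 : ∫ z in K, h z * conj (h0 z) = ((J : ℝ) : ℂ) := by
      rw [hJ, ← integral_complex_ofReal]
      apply integral_congr_ae
      have e3 : ∀ᵐ z ∂(volume.restrict K), h z = K.indicator h0 z :=
        ae_restrict_of_ae_restrict_of_subset hKΩ (memLp_indicator hKc hKΩ hh0c).coeFn_toLp
      filter_upwards [e3, ae_restrict_mem hKc.measurableSet] with z hz hzK
      rw [hz, indicator_of_mem hzK, RCLike.mul_conj]
      norm_cast
    rw [← inner_self_eq_norm_sq (𝕜 := ℂ) h, e1, e2]
    simp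
  -- orthogonality to the Bergman space
  have horth : ∀ G ∈ bergman Ω, inner ℂ h G = 0 := by
    rintro G ⟨g, hg, hG⟩
    rw [hh, inner_indicator hKc hKΩ hh0c, setIntegral_congr_bergman hKΩ hG,
      integral_avg hKc hKr (hg.continuousOn.mono hKΩ) hh0c β hh0w]
    obtain ⟨cg, hcg1, hcg2⟩ := avg_eq ho hc hR hg β
    have e1 : ∫ z in K, avg β g z * conj (h0 z) = ∫ z in K, cg * (mon β z * conj (h0 z)) := by
      apply setIntegral_congr_fun hKc.measurableSet
      intro z hz
      simp only
      rw [hcg1 z (hKs hz)]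
      ring
    rw [e1, integral_const_mul]
    rcases hcc with h2 | ⟨h2, -⟩
    · have e2 : ∫ z in K, mon β z * conj (h0 z) = conj (∫ z in K, h0 z * conj (mon β z)) := by
        rw [← integral_conj]
        congr 1
        ext z
        rw [map_mul, conj_conj]
        ring
      rw [e2, h2, map_zero, mul_zero]
    · rw [hcg2 h2, zero_mul]
  -- the identity on the domain
  have hdom : ∀ G : bergman Ω, inner ℂ h (S G) = inner ℂ h1 (G : Lp ℂ 2 (volume.restrict Ω)) := by
    have hcl : IsClosed {G : bergman Ω | inner ℂ h (S G) = inner ℂ h1 (G : Lp ℂ 2 (volume.restrict Ω))} := by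
      apply isClosed_eq
      · exact continuous_const.inner S.continuous
      · exact continuous_const.inner continuous_subtype_val
    have hsub : {G : bergman Ω | ∃ H, IsHankelValue Ω (fun z => conj (f z))
        (G : Lp ℂ 2 (volume.restrict Ω)) H} ⊆
        {G : bergman Ω | inner ℂ h (S G) = inner ℂ h1 (G : Lp ℂ 2 (volume.restrict Ω))} := by
      rintro G ⟨H, hH⟩
      have hSG := hS G H hH
      obtain ⟨-, -, Q, hQ, hGQ⟩ := hH
      show inner ℂ h (S G) = inner ℂ h1 (G : Lp ℂ 2 (volume.restrict Ω))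
      have e1 : inner ℂ h (S G) = inner ℂ h (H + Q) := by
        rw [hSG, inner_add_right, horth Q hQ, add_zero]
      rw [e1, hh, inner_indicator hKc hKΩ hh0c, hh1, inner_indicator hKc hKΩ hfh0c]
      apply integral_congr_ae
      have e2 : ∀ᵐ z ∂(volume.restrict K), (fun z => conj (f z) * (G : Lp ℂ 2 (volume.restrict Ω)) z) z
          = H z + Q z := ae_restrict_of_ae_restrict_of_subset hKΩ hGQ
      have e3 : ∀ᵐ z ∂(volume.restrict K), (H + Q) z = H z + Q z :=
        ae_restrict_of_ae_restrict_of_subset hKΩ (Lp.coeFn_add H Q)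
      filter_upwards [e2, e3] with z h2 h3
      rw [h3, ← h2, map_mul]
      ring
    intro G
    have := hdense.closure_eq ▸ (mem_univ G)
    exact (hcl.closure_subset_iff.mpr hsub) this
  -- evaluate at e
  have hval : inner ℂ h (S e) = conj (a * (J : ℂ)) := by
    rw [hdom e, hh1, inner_indicator hKc hKΩ hfh0c, setIntegral_congr_bergman hKΩ he]
    have e1 : ∫ z in K, mon γ z * conj (f z * h0 z) =
        conj (∫ z in K, f z * conj (conj (h0 z) * mon γ z)) := by
      rw [← integral_conj]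
      congr 1
      ext z
      simp only [map_mul, conj_conj]
      ring
    rw [e1]
    congr 1
    have hwc : ContinuousOn (fun z => conj (h0 z) * mon γ z) K :=
      (continuous_conj.comp_continuousOn hh0c).mul (hmc γ)
    have hww : ∀ z ∈ K, ∀ t, conj (h0 (rot t z)) * mon γ (rot t z) =
        mFourier α t * (conj (h0 z) * mon γ z) := by
      intro z hz t
      rw [hh0w z hz t, mon_rot, map_mul]
      have : conj (mFourier β t) * mFourier γ t = mFourier α t := by
        rw [← mFourier_neg, ← mFourier_add, hβ]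
        congr 2
        abel
      rw [← this]
      ring
    rw [integral_avg hKc hKr hfc hwc α hww]
    have e2 : ∫ z in K, avg α f z * conj (conj (h0 z) * mon γ z) =
        ∫ z in K, a * ((‖h0 z‖ ^ 2 : ℝ) + conj c * (h0 z * conj (mon β z))) := by
      apply setIntegral_congr_fun hKc.measurableSet
      intro z hz
      simp only
      rw [ha z (hKs hz)]
      have e3 : ((‖h0 z‖ ^ 2 : ℝ) : ℂ) = h0 z * conj (h0 z) := by
        rw [RCLike.mul_conj]; norm_cast
      rw [e3]
      simp only [map_mul, conj_conj, hh0, map_sub]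
      ring
    rw [e2, integral_const_mul]
    congr 1
    have i1 : Integrable (fun z => ((‖h0 z‖ ^ 2 : ℝ) : ℂ)) (volume.restrict K) := by
      have : ContinuousOn (fun z => ((‖h0 z‖ ^ 2 : ℝ) : ℂ)) K :=
        continuous_ofReal.comp_continuousOn (hh0c.norm.pow 2)
      exact this.integrableOn_compact hKc
    have i2 : Integrable (fun z => conj c * (h0 z * conj (mon β z))) (volume.restrict K) := by
      have : ContinuousOn (fun z => conj c * (h0 z * conj (mon β z))) K :=
        continuousOn_const.mul (hh0c.mul (continuous_conj.comp_continuousOn (hmc β)))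
      exact this.integrableOn_compact hKc
    rw [integral_add i1 i2, integral_const_mul, integral_complex_ofReal, ← hJ]
    rcases hcc with h2 | ⟨-, h2⟩
    · rw [h2]; simp
    · rw [h2]; simp
  -- conclusion
  have hcs : ‖inner ℂ h (S e)‖ ≤ ‖h‖ * ‖S e‖ := norm_inner_le_norm h (S e)
  rw [hval, RCLike.norm_conj, norm_mul, norm_real, Real.norm_eq_abs, abs_of_nonneg hJ0] at hcs
  have h2 : (‖a‖ * J) ^ 2 ≤ (‖h‖ * ‖S e‖) ^ 2 := pow_le_pow_left₀ (by positivity) hcs 2
  rw [mul_pow, mul_pow, hnorm] at h2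
  rcases hJ0.eq_or_lt with h3 | h3
  · rw [← h3]; simp
  · have h4 : J * (‖a‖ ^ 2 * J) ≤ J * ‖S e‖ ^ 2 := by
      calc J * (‖a‖ ^ 2 * J) = ‖a‖ ^ 2 * J ^ 2 := by ring
        _ ≤ J * ‖S e‖ ^ 2 := h2
    exact le_of_mul_le_mul_left h4 h3

end Pool.Agent.V1171.HSH
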