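import Mathlib
import Pool.Agent.V1171.HSH.Core

set_option autoImplicit false

open MeasureTheory Set Metric Filter Topology Complex ComplexConjugate
open scoped ENNReal

namespace Pool.Agent.V1171.HSH

noncomputable local instance : MeasureSpace UnitAddCircle := ⟨AddCircle.haarAddCircle⟩
local instance : Measure.IsAddHaarMeasure (volume : Measure UnitAddCircle) :=
  inferInstanceAs (Measure.IsAddHaarMeasure AddCircle.haarAddCircle)
local instance : IsProbabilityMeasure (volume : Measure UnitAddCircle) :=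
  inferInstanceAs (IsProbabilityMeasure AddCircle.haarAddCircle)

open UnitAddTorus

variable {n : ℕ}

/-- Exhaustion of `star Ω`. -/
def KK (Ω : Set (Fin n → ℂ)) (m : ℕ) : Set (Fin n → ℂ) :=
  {z | 1 / ((m : ℝ) + 1) ≤ infDist z Ωᶜ ∧ ∀ j, 1 / ((m : ℝ) + 1) ≤ ‖z j‖}

theorem KK_sub_star {Ω : Set (Fin n → ℂ)} (m : ℕ) : KK Ω m ⊆ star Ω := by
  rintro z ⟨h1, h2⟩
  have hpos : (0 : ℝ) < 1 / ((m : ℝ) + 1) := by positivity
  constructor
  · by_contra hz
    have : infDist z Ωᶜ = 0 := infDist_zero_of_mem hz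
    linarith
  · intro j hj
    have := h2 j
    rw [hj, norm_zero] at this
    linarith

theorem KK_mono (Ω : Set (Fin n → ℂ)) : Monotone (KK Ω) := by
  intro m m' h z hz
  have : 1 / ((m' : ℝ) + 1) ≤ 1 / ((m : ℝ) + 1) := by
    apply one_div_le_one_div_of_le (by positivity)
    have : (m : ℝ) ≤ m' := by exact_mod_cast h
    linarith
  exact ⟨this.trans hz.1, fun j => this.trans (hz.2 j)⟩

theorem KK_isClosed (Ω : Set (Fin n → ℂ)) (m : ℕ) : IsClosed (KK Ω m) := by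
  have : KK Ω m = {z | 1 / ((m : ℝ) + 1) ≤ infDist z Ωᶜ} ∩
      ⋂ j, {z : Fin n → ℂ | 1 / ((m : ℝ) + 1) ≤ ‖z j‖} := by
    ext z; simp [KK]
  rw [this]
  apply IsClosed.inter
  · exact isClosed_le continuous_const (continuous_infDist_pt _)
  · apply isClosed_iInter
    intro j
    exact isClosed_le continuous_const (continuous_apply j).norm

theorem KK_compact {Ω : Set (Fin n → ℂ)} (hb : Bornology.IsBounded Ω) (m : ℕ) :
    IsCompact (KK Ω m) :=
  Metric.isCompact_of_isClosed_isBounded (KK_isClosed Ω m)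
    (hb.subset (fun _ hz => (KK_sub_star m hz).1))

theorem rot_compl {Ω : Set (Fin n → ℂ)} (hR : IsReinhardt Ω) {z : Fin n → ℂ} (hz : z ∈ Ωᶜ)
    (t : UnitAddTorus (Fin n)) : rot t z ∈ Ωᶜ := by
  intro h
  apply hz
  have := rot_mem hR h (-t)
  rwa [← rot_add, neg_add_cancel, rot_zero] at this

theorem infDist_rot {Ω : Set (Fin n → ℂ)} (hR : IsReinhardt Ω) (hne : (Ωᶜ).Nonempty)
    (t : UnitAddTorus (Fin n)) (z : Fin n → ℂ) : infDist z Ωᶜ ≤ infDist (rot t z) Ωᶜ := by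
  rw [le_infDist hne]
  intro w hw
  have h1 : dist (rot t z) w = dist z (rot (-t) w) := by
    have : w = rot t (rot (-t) w) := by rw [← rot_add, add_neg_cancel, rot_zero]
    rw [dist_eq_norm, dist_eq_norm]
    conv_lhs => rw [this]
    rw [norm_rot_sub]
  rw [h1]
  exact infDist_le_dist_of_mem (rot_compl hR hw (-t))

theorem KK_rot {Ω : Set (Fin n → ℂ)} (hR : IsReinhardt Ω) (hne : (Ωᶜ).Nonempty) (m : ℕ) :
    ∀ z ∈ KK Ω m, ∀ t, rot t z ∈ KK Ω m := by
  rintro z ⟨h1, h2⟩ t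
  refine ⟨h1.trans (infDist_rot hR hne t z), ?_⟩
  intro j
  simp only [rot, norm_mul, norm_fourier, one_mul]
  exact h2 j

theorem iUnion_KK {Ω : Set (Fin n → ℂ)} (ho : IsOpen Ω) (hne : (Ωᶜ).Nonempty) :
    ⋃ m, KK Ω m = star Ω := by
  apply Subset.antisymm (iUnion_subset (fun m => KK_sub_star m))
  rintro z ⟨hz1, hz2⟩
  have hpos : 0 < infDist z Ωᶜ :=
    (ho.isClosed_compl.notMem_iff_infDist_pos hne).mp (by simpa using hz1)
  have h1 : ∀ᶠ m : ℕ in atTop, 1 / ((m : ℝ) + 1) < infDist z Ωᶜ :=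
    tendsto_one_div_add_atTop_nhds_zero_nat.eventually (gt_mem_nhds hpos)
  have h2 : ∀ᶠ m : ℕ in atTop, ∀ j, 1 / ((m : ℝ) + 1) < ‖z j‖ := by
    rw [eventually_all]
    intro j
    exact tendsto_one_div_add_atTop_nhds_zero_nat.eventually
      (gt_mem_nhds (norm_pos_iff.mpr (hz2 j)))
  obtain ⟨m, hm1, hm2⟩ := (h1.and h2).exists
  exact mem_iUnion.mpr ⟨m, hm1.le, fun j => (hm2 j).le⟩

/-- Squared norm of the monomial. -/
noncomputable def L (Ω : Set (Fin n → ℂ)) (δ : Fin n → ℤ) : ℝ≥0∞ :=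
  ∫⁻ z in Ω, ENNReal.ofReal (‖mon δ z‖ ^ 2)

theorem L_star (Ω : Set (Fin n → ℂ)) (δ : Fin n → ℤ) : L (star Ω) δ = L Ω δ := by
  unfold L
  have hsub : star Ω ⊆ Ω := fun z hz => hz.1
  have hnull : volume (Ω \ star Ω) = 0 := by
    have h1 : Ω \ star Ω ⊆ ⋃ j, {z : Fin n → ℂ | z j = 0} := by
      rintro z ⟨h2, h3⟩
      simp only [star, mem_ofPred_eq, not_and, not_forall, not_not] at h3
      obtain ⟨j, hj⟩ := h3 h2
      exact mem_iUnion.mpr ⟨j, hj⟩
    apply measure_mono_null h1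
    rw [measure_iUnion_null_iff]
    intro j
    exact Measure.pi_hyperplane (fun _ : Fin n => (volume : Measure ℂ)) j 0
  have h2 : (star Ω : Set (Fin n → ℂ)) =ᵐ[volume] Ω := by
    rw [ae_eq_set]
    refine ⟨?_, hnull⟩
    rw [sdiff_eq_empty.mpr hsub]; simp
  rw [Measure.restrict_congr_set h2]

theorem L_iSup {Ω : Set (Fin n → ℂ)} (ho : IsOpen Ω) (hne : (Ωᶜ).Nonempty) (δ : Fin n → ℤ) :
    Tendsto (fun m => L (KK Ω m) δ) atTop (𝓝 (L Ω δ)) := by
  rw [← L_star Ω, ← iUnion_KK ho hne]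
  have hmono : Monotone (fun m => L (KK Ω m) δ) := fun m m' h =>
    lintegral_mono_set (KK_mono Ω h)
  have h1 : L (⋃ m, KK Ω m) δ = ⨆ m, L (KK Ω m) δ := by
    unfold L
    rw [setLIntegral_iUnion_of_directed]
    exact (KK_mono Ω).directed_le
  rw [h1]
  exact tendsto_atTop_iSup hmono

theorem L_mono {Ω : Set (Fin n → ℂ)} (m : ℕ) (δ : Fin n → ℤ) : L (KK Ω m) δ ≤ L Ω δ :=
  lintegral_mono_set (fun _ hz => (KK_sub_star m hz).1)

theorem mon_add {δ γ : Fin n → ℤ} {z : Fin n → ℂ} (hz : ∀ j, z j ≠ 0) :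
    mon (δ + γ) z = mon δ z * mon γ z := by
  simp only [mon, Pi.add_apply, ← Finset.prod_mul_distrib]
  apply Finset.prod_congr rfl
  intro j _
  rw [zpow_add₀ (hz j)]

/-- Real version on compact sets. -/
noncomputable def NK (K : Set (Fin n → ℂ)) (δ : Fin n → ℤ) : ℝ := ∫ z in K, ‖mon δ z‖ ^ 2

theorem NK_nonneg (K : Set (Fin n → ℂ)) (δ : Fin n → ℤ) : 0 ≤ NK K δ :=
  integral_nonneg (fun _ => by positivity)

theorem NK_integrable {Ω K : Set (Fin n → ℂ)} (hKc : IsCompact K) (hKs : K ⊆ star Ω)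
    (δ : Fin n → ℤ) : Integrable (fun z => ‖mon δ z‖ ^ 2) (volume.restrict K) :=
  ((mon_continuousOn δ hKs).norm.pow 2).integrableOn_compact hKc

theorem L_eq_NK {Ω K : Set (Fin n → ℂ)} (hKc : IsCompact K) (hKs : K ⊆ star Ω)
    (δ : Fin n → ℤ) : L K δ = ENNReal.ofReal (NK K δ) := by
  unfold L NK
  rw [ofReal_integral_eq_lintegral_ofReal (NK_integrable hKc hKs δ)]
  filter_upwards with z
  positivity

/-- The core inequality on a compact set, case of a holomorphic `z^(γ-α)`. -/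
theorem core_real {Ω : Set (Fin n → ℂ)} (ho : IsOpen Ω) (hc : IsConnected Ω) (hR : IsReinhardt Ω)
    {f : (Fin n → ℂ) → ℂ} (hf : DifferentiableOn ℂ f Ω)
    (hdense : Dense {G : bergman Ω | ∃ H, IsHankelValue Ω (fun z => conj (f z))
      (G : Lp ℂ 2 (volume.restrict Ω)) H})
    (S : bergman Ω →L[ℂ] Lp ℂ 2 (volume.restrict Ω))
    (hS : ∀ (G : bergman Ω) (H : Lp ℂ 2 (volume.restrict Ω)),
      IsHankelValue Ω (fun z => conj (f z)) (G : Lp ℂ 2 (volume.restrict Ω)) H → S G = H)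
    {α γ : Fin n → ℤ} {a : ℂ} (ha : ∀ z ∈ star Ω, avg α f z = a * mon α z)
    (e : bergman Ω) (he : (e : Lp ℂ 2 (volume.restrict Ω)) =ᵐ[volume.restrict Ω] mon γ)
    {K : Set (Fin n → ℂ)} (hKc : IsCompact K) (hKs : K ⊆ star Ω) (hKr : ∀ z ∈ K, ∀ t, rot t z ∈ K)
    (c : ℝ) (hcc : NK K γ = c * NK K (γ - α) ∨ (¬ Hol Ω (γ - α) ∧ c = 0)) :
    ‖a‖ ^ 2 * (NK K (γ + α) - c * NK K γ) ≤ ‖S e‖ ^ 2 := by
  have hpt : ∀ z ∈ K, conj (mon α z) * mon γ z - (c : ℂ) * mon (γ - α) z =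
      ((‖mon α z‖ ^ 2 - c : ℝ) : ℂ) * mon (γ - α) z := by
    intro z hz
    have h1 : mon γ z = mon α z * mon (γ - α) z := by
      rw [← mon_add (hKs hz).2]
      congr 1
      abel
    rw [h1]
    push_cast
    have h2 : ((‖mon α z‖ : ℝ) : ℂ) ^ 2 = mon α z * conj (mon α z) := by
      rw [Complex.mul_conj']
    rw [h2]
    ring
  have hnα : ∀ z ∈ K, ‖mon γ z‖ ^ 2 = ‖mon α z‖ ^ 2 * ‖mon (γ - α) z‖ ^ 2 := by
    intro z hz
    have h1 : mon γ z = mon α z * mon (γ - α) z := by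
      rw [← mon_add (hKs hz).2]
      congr 1
      abel
    rw [h1, norm_mul, mul_pow]
  have hnα2 : ∀ z ∈ K, ‖mon (γ + α) z‖ ^ 2 = ‖mon α z‖ ^ 2 * ‖mon γ z‖ ^ 2 := by
    intro z hz
    rw [mon_add (hKs hz).2, norm_mul, mul_pow, mul_comm]
  have i1 := NK_integrable hKc hKs (γ + α)
  have i2 := NK_integrable hKc hKs γ
  have i3 := NK_integrable hKc hKs (γ - α)
  -- orthogonality
  have horth : ∫ z in K, (conj (mon α z) * mon γ z - (c : ℂ) * mon (γ - α) z) * conj (mon (γ - α) z) =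
      ((NK K γ - c * NK K (γ - α) : ℝ) : ℂ) := by
    have h1 : ∫ z in K, (conj (mon α z) * mon γ z - (c : ℂ) * mon (γ - α) z) * conj (mon (γ - α) z) =
        ∫ z in K, ((‖mon γ z‖ ^ 2 - c * ‖mon (γ - α) z‖ ^ 2 : ℝ) : ℂ) := by
      apply setIntegral_congr_fun hKc.measurableSet
      intro z hz
      simp only
      rw [hpt z hz, hnα z hz, mul_assoc, Complex.mul_conj']
      push_cast
      ring
    rw [h1, integral_complex_ofReal, integral_sub i2 (i3.const_mul c), integral_const_mul]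
    rfl
  have hint : ∫ z in K, ‖conj (mon α z) * mon γ z - (c : ℂ) * mon (γ - α) z‖ ^ 2 =
      NK K (γ + α) - 2 * c * NK K γ + c ^ 2 * NK K (γ - α) := by
    have h1 : ∫ z in K, ‖conj (mon α z) * mon γ z - (c : ℂ) * mon (γ - α) z‖ ^ 2 =
        ∫ z in K, (‖mon (γ + α) z‖ ^ 2 - 2 * c * ‖mon γ z‖ ^ 2 + c ^ 2 * ‖mon (γ - α) z‖ ^ 2) := by
      apply setIntegral_congr_fun hKc.measurableSet
      intro z hz
      simp only
      rw [hpt z hz, norm_mul, mul_pow, norm_real, Real.norm_eq_abs, sq_abs, hnα2 z hz, hnα z hz]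
      ring
    have i4 : Integrable (fun z => ‖mon (γ + α) z‖ ^ 2 - 2 * c * ‖mon γ z‖ ^ 2)
        (volume.restrict K) := i1.sub (i2.const_mul (2 * c))
    rw [h1, integral_add i4 (i3.const_mul _),
      integral_sub i1 (i2.const_mul _), integral_const_mul, integral_const_mul]
    rfl
  have h2 := core ho hc hR hf hdense S hS ha e he hKc hKs hKr (c : ℂ) (by
    rcases hcc with h | ⟨h, h'⟩
    · left
      rw [horth, h, sub_self, ofReal_zero]
    · right
      exact ⟨h, by rw [h']; simp⟩)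
  rw [hint] at h2
  rcases hcc with h | ⟨-, h⟩
  · have : NK K (γ + α) - 2 * c * NK K γ + c ^ 2 * NK K (γ - α) = NK K (γ + α) - c * NK K γ := by
      have h3 : c ^ 2 * NK K (γ - α) = c * NK K γ := by rw [h]; ring
      rw [h3]; ring
    rwa [this] at h2
  · rw [h] at h2 ⊢
    simpa using h2

end Pool.Agent.V1171.HSH
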