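import Mathlib
import Pool.Agent.V1171.HSH.Exhaust

set_option autoImplicit false

open MeasureTheory Set Metric Filter Topology Complex ComplexConjugate
open scoped ENNReal

namespace Pool.Agent.V1171.HSH

noncomputable local instance : MeasureSpace UnitAddCircle := ⟨AddCircle.haarAddCircle⟩
local instance : Measure.IsAddHaarMeasure (volume : Measure UnitAddCircle) :=
  inferInstanceAs (Measure.IsAddHaarMeasure AddCircle.haarAddCircle)
local instance : IsProbabilityMeasure (volume : Measure UnitAddCircle) :=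
  inferInstanceAs (IsProbabilityMeasure AddCircle.haarAddCircle)

open UnitAddTorus

variable {n : ℕ}

/-- Exponents of monomials in the Bergman space. -/
def Gam (Ω : Set (Fin n → ℂ)) (γ : Fin n → ℤ) : Prop := Hol Ω γ ∧ L Ω γ < ∞

theorem mon_diffOn {Ω : Set (Fin n → ℂ)} {γ : Fin n → ℤ} (h : Hol Ω γ) :
    DifferentiableOn ℂ (mon γ) Ω := by
  intro z hz
  apply DifferentiableAt.differentiableWithinAt
  unfold mon
  apply prod_differentiableAt
  intro j _
  have h1 : DifferentiableAt ℂ (fun w : ℂ => w ^ γ j) (z j) := by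
    apply differentiableAt_zpow.mpr
    by_cases hj : z j = 0
    · right; exact h j ⟨z, hz, hj⟩
    · left; exact hj
  have h2 : DifferentiableAt ℂ (fun z : Fin n → ℂ => z j) z := differentiableAt_apply j z
  exact h1.comp z h2

theorem mon_memLp {Ω : Set (Fin n → ℂ)} (ho : IsOpen Ω) {γ : Fin n → ℤ} (h : Gam Ω γ) :
    MemLp (mon γ) 2 (volume.restrict Ω) := by
  have h1 : AEStronglyMeasurable (mon γ) (volume.restrict Ω) :=
    (mon_diffOn h.1).continuousOn.aestronglyMeasurable ho.measurableSet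
  rw [memLp_two_iff_integrable_sq_norm h1]
  refine ⟨h1.norm.pow 2, ?_⟩
  rw [hasFiniteIntegral_iff_ofReal]
  · exact h.2
  · filter_upwards with z
    positivity

/-- The monomial as an element of the Bergman space. -/
noncomputable def eb {Ω : Set (Fin n → ℂ)} (ho : IsOpen Ω) {γ : Fin n → ℤ} (h : Gam Ω γ) :
    bergman Ω :=
  ⟨(mon_memLp ho h).toLp (mon γ), mon γ, mon_diffOn h.1, (mon_memLp ho h).coeFn_toLp⟩

theorem eb_ae {Ω : Set (Fin n → ℂ)} (ho : IsOpen Ω) {γ : Fin n → ℤ} (h : Gam Ω γ) :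
    ((eb ho h : bergman Ω) : Lp ℂ 2 (volume.restrict Ω)) =ᵐ[volume.restrict Ω] mon γ :=
  (mon_memLp ho h).coeFn_toLp

theorem inner_eb {Ω : Set (Fin n → ℂ)} (ho : IsOpen Ω) {γ δ : Fin n → ℤ} (hγ : Gam Ω γ)
    (hδ : Gam Ω δ) : inner ℂ (eb ho hγ) (eb ho hδ) = ∫ z in Ω, mon δ z * conj (mon γ z) := by
  rw [Submodule.coe_inner, L2.inner_def]
  apply integral_congr_ae
  filter_upwards [eb_ae ho hγ, eb_ae ho hδ] with z h1 h2
  rw [h1, h2, RCLike.inner_apply]

theorem norm_eb {Ω : Set (Fin n → ℂ)} (ho : IsOpen Ω) {γ : Fin n → ℤ} (hγ : Gam Ω γ) :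
    ‖eb ho hγ‖ ^ 2 = (L Ω γ).toReal := by
  rw [← inner_self_eq_norm_sq (𝕜 := ℂ) (eb ho hγ), inner_eb]
  have h1 : ∫ z in Ω, mon γ z * conj (mon γ z) = ((∫ z in Ω, ‖mon γ z‖ ^ 2 : ℝ) : ℂ) := by
    rw [← integral_complex_ofReal]
    congr 1
    ext z
    rw [Complex.mul_conj']
    push_cast
    rfl
  rw [h1]
  have h2 : ∫ z in Ω, ‖mon γ z‖ ^ 2 = (L Ω γ).toReal := by
    unfold L
    rw [integral_eq_lintegral_of_nonneg_ae]
    · filter_upwards with z
      positivity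
    · exact ((mon_memLp ho hγ).1.norm.pow 2)
  rw [h2]
  simp

theorem inner_eb_ne {Ω : Set (Fin n → ℂ)} (ho : IsOpen Ω) (hR : IsReinhardt Ω) {γ δ : Fin n → ℤ}
    (hγ : Gam Ω γ) (hδ : Gam Ω δ) (hne : γ ≠ δ) : inner ℂ (eb ho hγ) (eb ho hδ) = 0 := by
  rw [inner_eb]
  obtain ⟨j, hj⟩ := Function.ne_iff.mp hne
  set k : ℤ := δ j - γ j with hk
  have hk0 : (k : ℝ) ≠ 0 := by
    have : k ≠ 0 := sub_ne_zero.mpr (Ne.symm hj)
    exact_mod_cast this
  set t : UnitAddTorus (Fin n) := Pi.single j (((1 / (2 * (k : ℝ)) : ℝ)) : UnitAddCircle) with ht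
  have h1 := setIntegral_rot (K := Ω) (fun z hz s => rot_mem hR hz s)
    (fun z => mon δ z * conj (mon γ z)) t
  have h2 : ∀ z, mon δ (rot t z) * conj (mon γ (rot t z)) =
      mFourier (δ - γ) t * (mon δ z * conj (mon γ z)) := by
    intro z
    rw [mon_rot, mon_rot, map_mul, sub_eq_add_neg, mFourier_add, mFourier_neg]
    ring
  have h3 : mFourier (δ - γ) t = -1 := by
    simp only [mFourier, ContinuousMap.coe_mk]
    rw [Finset.prod_eq_single j]
    · rw [ht, Pi.single_eq_same, fourier_coe_apply]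
      have : 2 * (Real.pi : ℂ) * Complex.I * (((δ - γ) j : ℤ) : ℂ) * ((1 / (2 * (k : ℝ)) : ℝ) : ℂ) / ((1 : ℝ) : ℂ) =
          Real.pi * Complex.I := by
        have h4 : (((δ - γ) j : ℤ) : ℂ) = (k : ℂ) := by rw [hk]; rfl
        have h5 : (k : ℂ) ≠ 0 := by exact_mod_cast hk0
        rw [h4]
        push_cast
        field_simp
      rw [this, Complex.exp_pi_mul_I]
    · intro i _ hij
      rw [ht, Pi.single_eq_of_ne hij]
      simp
    · intro h; exact absurd (Finset.mem_univ j) h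
  simp_rw [h2, h3] at h1
  rw [integral_const_mul] at h1
  have h4 : (2 : ℂ) * ∫ z in Ω, mon δ z * conj (mon γ z) = 0 := by
    linear_combination -h1
  simpa using h4

theorem NK_eq_toReal {Ω : Set (Fin n → ℂ)} (hb : Bornology.IsBounded Ω) (m : ℕ)
    (δ : Fin n → ℤ) : NK (KK Ω m) δ = (L (KK Ω m) δ).toReal := by
  rw [L_eq_NK (KK_compact hb m) (KK_sub_star m), ENNReal.toReal_ofReal (NK_nonneg _ _)]

theorem NK_tendsto {Ω : Set (Fin n → ℂ)} (ho : IsOpen Ω) (hb : Bornology.IsBounded Ω)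
    (hne : (Ωᶜ).Nonempty) {δ : Fin n → ℤ} (h : L Ω δ < ∞) :
    Tendsto (fun m => NK (KK Ω m) δ) atTop (𝓝 (L Ω δ).toReal) := by
  simp_rw [NK_eq_toReal hb]
  exact (ENNReal.tendsto_toReal h.ne).comp (L_iSup ho hne δ)

theorem NK_tendsto_top {Ω : Set (Fin n → ℂ)} (ho : IsOpen Ω) (hb : Bornology.IsBounded Ω)
    (hne : (Ωᶜ).Nonempty) {δ : Fin n → ℤ} (h : L Ω δ = ∞) :
    Tendsto (fun m => NK (KK Ω m) δ) atTop atTop := by
  rw [← ENNReal.tendsto_ofReal_nhds_top, ← h]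
  refine (L_iSup ho hne δ).congr (fun m => ?_)
  rw [L_eq_NK (KK_compact hb m) (KK_sub_star m)]

theorem NK_le {Ω : Set (Fin n → ℂ)} (hb : Bornology.IsBounded Ω) {δ : Fin n → ℤ} (h : L Ω δ < ∞)
    (m : ℕ) : NK (KK Ω m) δ ≤ (L Ω δ).toReal := by
  rw [NK_eq_toReal hb]
  exact ENNReal.toReal_mono h.ne (L_mono m δ)

theorem L_le_of_eventually {Ω : Set (Fin n → ℂ)} (ho : IsOpen Ω) (hb : Bornology.IsBounded Ω)
    (hne : (Ωᶜ).Nonempty) {δ : Fin n → ℤ} {u : ℕ → ℝ} {v : ℝ} (hu : Tendsto u atTop (𝓝 v))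
    (h : ∀ᶠ m in atTop, NK (KK Ω m) δ ≤ u m) : L Ω δ ≤ ENNReal.ofReal v := by
  have h1 : Tendsto (fun m => ENNReal.ofReal (u m)) atTop (𝓝 (ENNReal.ofReal v)) :=
    ENNReal.tendsto_ofReal hu
  refine le_of_tendsto_of_tendsto (L_iSup ho hne δ) h1 ?_
  filter_upwards [h] with m hm
  rw [L_eq_NK (KK_compact hb m) (KK_sub_star m)]
  exact ENNReal.ofReal_le_ofReal hm

theorem L_pos {Ω : Set (Fin n → ℂ)} (ho : IsOpen Ω) (hne : Ω.Nonempty) (δ : Fin n → ℤ) :
    0 < L Ω δ := by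
  rw [← L_star]
  unfold L
  have hso := isOpen_star ho
  have hsn := star_nonempty ho hne
  have h1 : AEMeasurable (fun z => ENNReal.ofReal (‖mon δ z‖ ^ 2)) (volume.restrict (star Ω)) := by
    have hc : ContinuousOn (fun z => ‖mon δ z‖ ^ 2) (star Ω) :=
      (mon_continuousOn δ (Subset.refl (star Ω))).norm.pow 2
    exact (hc.aemeasurable hso.measurableSet).ennreal_ofReal
  rw [pos_iff_ne_zero]
  intro h0
  rw [lintegral_eq_zero_iff' h1] at h0
  have h2 : ∀ᵐ z ∂(volume.restrict (star Ω)), False := by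
    filter_upwards [h0, ae_restrict_mem hso.measurableSet] with z h3 h4
    have := norm_pos_iff.mpr (mon_ne δ h4.2)
    have h5 : 0 < ‖mon δ z‖ ^ 2 := by positivity
    exact (ENNReal.ofReal_pos.mpr h5).ne' h3
  rw [Filter.eventually_false_iff_eq_bot, ae_eq_bot] at h2
  have h6 : volume (star Ω) = 0 := by
    rw [← Measure.restrict_apply_univ, h2]; simp
  exact (hso.measure_pos _ hsn).ne' h6

/-- The limit inequality. -/
theorem limit_ineq {Ω : Set (Fin n → ℂ)} (ho : IsOpen Ω) (hc : IsConnected Ω)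
    (hb : Bornology.IsBounded Ω) (hne : (Ωᶜ).Nonempty) (hR : IsReinhardt Ω)
    {f : (Fin n → ℂ) → ℂ} (hf : DifferentiableOn ℂ f Ω)
    (hdense : Dense {G : bergman Ω | ∃ H, IsHankelValue Ω (fun z => conj (f z))
      (G : Lp ℂ 2 (volume.restrict Ω)) H})
    (S : bergman Ω →L[ℂ] Lp ℂ 2 (volume.restrict Ω))
    (hS : ∀ (G : bergman Ω) (H : Lp ℂ 2 (volume.restrict Ω)),
      IsHankelValue Ω (fun z => conj (f z)) (G : Lp ℂ 2 (volume.restrict Ω)) H → S G = H)
    {α : Fin n → ℤ} {a : ℂ} (ha : ∀ z ∈ star Ω, avg α f z = a * mon α z) (ha0 : a ≠ 0)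
    {γ : Fin n → ℤ} (hγ : Gam Ω γ) :
    L Ω (γ + α) < ∞ ∧
    (Gam Ω (γ - α) → ‖a‖ ^ 2 * ((L Ω (γ + α)).toReal -
      (L Ω γ).toReal / (L Ω (γ - α)).toReal * (L Ω γ).toReal) ≤ ‖S (eb ho hγ)‖ ^ 2) ∧
    (¬ Gam Ω (γ - α) → ‖a‖ ^ 2 * (L Ω (γ + α)).toReal ≤ ‖S (eb ho hγ)‖ ^ 2) := by
  set s : ℝ := ‖S (eb ho hγ)‖ ^ 2 with hs
  have hs0 : 0 ≤ s := by positivity
  have hA : 0 < ‖a‖ ^ 2 := by have := norm_pos_iff.mpr ha0; positivity
  have hcore := fun (m : ℕ) (c : ℝ) (hcc : NK (KK Ω m) γ = c * NK (KK Ω m) (γ - α) ∨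
      (¬ Hol Ω (γ - α) ∧ c = 0)) =>
    core_real ho hc hR hf hdense S hS ha (eb ho hγ) (eb_ae ho hγ) (KK_compact hb m)
      (KK_sub_star m) (KK_rot hR hne m) c hcc
  by_cases hβ : Hol Ω (γ - α)
  · by_cases hLβ : L Ω (γ - α) < ∞
    · -- finite
      have hNβpos : 0 < (L Ω (γ - α)).toReal :=
        ENNReal.toReal_pos (L_pos ho hc.nonempty _).ne' hLβ.ne
      have ht1 := NK_tendsto ho hb hne hLβ
      have ht2 := NK_tendsto ho hb hne hγ.2
      have hev : ∀ᶠ m in atTop, NK (KK Ω m) (γ + α) ≤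
          s / ‖a‖ ^ 2 + NK (KK Ω m) γ / NK (KK Ω m) (γ - α) * NK (KK Ω m) γ := by
        filter_upwards [ht1.eventually (lt_mem_nhds hNβpos)] with m hm
        have h1 := hcore m (NK (KK Ω m) γ / NK (KK Ω m) (γ - α)) (Or.inl (by
          field_simp))
        rw [← le_div_iff₀' hA] at h1
        linarith
      have hlim : Tendsto (fun m => s / ‖a‖ ^ 2 +
          NK (KK Ω m) γ / NK (KK Ω m) (γ - α) * NK (KK Ω m) γ) atTop
          (𝓝 (s / ‖a‖ ^ 2 + (L Ω γ).toReal / (L Ω (γ - α)).toReal * (L Ω γ).toReal)) :=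
        tendsto_const_nhds.add ((ht2.div ht1 hNβpos.ne').mul ht2)
      have hle := L_le_of_eventually ho hb hne hlim hev
      have hlt : L Ω (γ + α) < ∞ := hle.trans_lt ENNReal.ofReal_lt_top
      refine ⟨hlt, fun _ => ?_, fun h => absurd ⟨hβ, hLβ⟩ h⟩
      have h2 : (L Ω (γ + α)).toReal ≤
          s / ‖a‖ ^ 2 + (L Ω γ).toReal / (L Ω (γ - α)).toReal * (L Ω γ).toReal :=
        ENNReal.toReal_le_of_le_ofReal (by positivity) hle
      rw [← le_div_iff₀' hA]
      linarith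
    · -- infinite
      have htop : L Ω (γ - α) = ∞ := by simpa using hLβ
      have ht1 := NK_tendsto_top ho hb hne htop
      have hev : ∀ᶠ m in atTop, NK (KK Ω m) (γ + α) ≤
          s / ‖a‖ ^ 2 + (L Ω γ).toReal ^ 2 / NK (KK Ω m) (γ - α) := by
        filter_upwards [ht1.eventually (eventually_gt_atTop 0)] with m hm
        have h1 := hcore m (NK (KK Ω m) γ / NK (KK Ω m) (γ - α)) (Or.inl (by
          field_simp))
        rw [← le_div_iff₀' hA] at h1
        have h2 : NK (KK Ω m) γ / NK (KK Ω m) (γ - α) * NK (KK Ω m) γ ≤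
            (L Ω γ).toReal ^ 2 / NK (KK Ω m) (γ - α) := by
          have h3 := NK_le hb hγ.2 m
          have h4 := NK_nonneg (KK Ω m) γ
          rw [div_mul_eq_mul_div, ← pow_two]
          exact div_le_div_of_nonneg_right (pow_le_pow_left₀ h4 h3 2) hm.le
        linarith
      have hlim : Tendsto (fun m => s / ‖a‖ ^ 2 + (L Ω γ).toReal ^ 2 / NK (KK Ω m) (γ - α)) atTop
          (𝓝 (s / ‖a‖ ^ 2 + 0)) :=
        tendsto_const_nhds.add (ht1.const_div_atTop _)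
      rw [add_zero] at hlim
      have hle := L_le_of_eventually ho hb hne hlim hev
      have hlt : L Ω (γ + α) < ∞ := hle.trans_lt ENNReal.ofReal_lt_top
      refine ⟨hlt, fun h => absurd h.2 (by rw [htop]; simp), fun _ => ?_⟩
      have h2 : (L Ω (γ + α)).toReal ≤ s / ‖a‖ ^ 2 :=
        ENNReal.toReal_le_of_le_ofReal (by positivity) hle
      rw [← le_div_iff₀' hA]
      exact h2
  · have hev : ∀ᶠ m in atTop, NK (KK Ω m) (γ + α) ≤ s / ‖a‖ ^ 2 := by
      filter_upwards with m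
      have h1 := hcore m 0 (Or.inr ⟨hβ, rfl⟩)
      rw [← le_div_iff₀' hA] at h1
      linarith
    have hle := L_le_of_eventually ho hb hne tendsto_const_nhds hev
    have hlt : L Ω (γ + α) < ∞ := hle.trans_lt ENNReal.ofReal_lt_top
    refine ⟨hlt, fun h => absurd h.1 hβ, fun _ => ?_⟩
    have h2 : (L Ω (γ + α)).toReal ≤ s / ‖a‖ ^ 2 :=
      ENNReal.toReal_le_of_le_ofReal (by positivity) hle
    rw [← le_div_iff₀' hA]
    exact h2

end Pool.Agent.V1171.HSH
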