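import Mathlib

set_option autoImplicit false

open Set Filter Topology Complex ComplexConjugate

namespace Pool.Agent.V1171.HSH

/-- The Hilbert-Schmidt sum over an orthonormal basis bounds the sum over any finite orthonormal
family. -/
theorem sum_le_of_basis {E F : Type*} [NormedAddCommGroup E] [InnerProductSpace ℂ E]
    [NormedAddCommGroup F] [InnerProductSpace ℂ F] [CompleteSpace F] {ι : Type*}
    (b : HilbertBasis ι ℂ E) (S : E →L[ℂ] F) (hS : Summable fun i => ‖S (b i)‖ ^ 2)
    {κ : Type*} [Fintype κ] (e : κ → E) (he : Orthonormal ℂ e) :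
    ∑ k, ‖S (e k)‖ ^ 2 ≤ ∑' i, ‖S (b i)‖ ^ 2 := by
  classical
  have : CompleteSpace E := by
    have h1 : IsUniformInducing b.repr := b.repr.isometry.isUniformInducing
    rw [completeSpace_iff_isComplete_range h1, b.repr.surjective.range_eq]
    exact isComplete_univ
  -- one vector
  have one : ∀ v : F, ∑ k, ‖inner ℂ v (S (e k))‖ ^ 2 ≤ ∑' i, ‖inner ℂ v (S (b i))‖ ^ 2 ∧
      Summable (fun i => ‖inner ℂ v (S (b i))‖ ^ 2) := by
    intro v
    set w : E := S.adjoint v with hw
    have h1 : ∀ x : E, inner ℂ v (S x) = inner ℂ w x := by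
      intro x
      rw [hw, ContinuousLinearMap.adjoint_inner_left]
    have h2 : HasSum (fun i => ‖inner ℂ w (b i)‖ ^ 2) (‖w‖ ^ 2) := by
      have h3 := b.hasSum_inner_mul_inner w w
      have h4 : ∀ i, inner ℂ w (b i) * inner ℂ (b i) w = ((‖inner ℂ w (b i)‖ ^ 2 : ℝ) : ℂ) := by
        intro i
        rw [← inner_conj_symm (b i) w, RCLike.mul_conj]
        norm_cast
      simp_rw [h4] at h3
      rw [inner_self_eq_norm_sq_to_K] at h3
      have h5 : (((‖w‖ : ℝ) : ℂ)) ^ 2 = ((‖w‖ ^ 2 : ℝ) : ℂ) := by push_cast; rfl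
      have h6 := h3.mapL Complex.reCLM
      simp only [Complex.reCLM_apply, Complex.ofReal_re] at h6
      have h7 : (((‖w‖ : ℝ) : ℂ) ^ 2).re = ‖w‖ ^ 2 := by rw [h5, Complex.ofReal_re]
      convert h6 using 1
      exact h7.symm
    simp_rw [h1]
    refine ⟨?_, h2.summable⟩
    rw [h2.tsum_eq]
    have h5 := he.sum_inner_products_le w (s := Finset.univ)
    refine le_trans (le_of_eq ?_) h5
    apply Finset.sum_congr rfl
    intro k _
    rw [← inner_conj_symm w (e k), RCLike.norm_conj]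
  -- finite dimensional span
  set W : Submodule ℂ F := Submodule.span ℂ (Set.range fun k => S (e k)) with hW
  have : FiniteDimensional ℂ W := FiniteDimensional.span_of_finite ℂ (Set.finite_range _)
  set u := stdOrthonormalBasis ℂ W with hu
  have hek : ∀ k, ‖S (e k)‖ ^ 2 = ∑ j, ‖inner ℂ (u j : F) (S (e k))‖ ^ 2 := by
    intro k
    have hmem : S (e k) ∈ W := Submodule.subset_span ⟨k, rfl⟩
    have h1 := u.sum_sq_norm_inner_right ⟨S (e k), hmem⟩
    have h2 : ‖(⟨S (e k), hmem⟩ : W)‖ = ‖S (e k)‖ := rfl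
    rw [h2] at h1
    rw [← h1]
    apply Finset.sum_congr rfl
    intro j _
    rfl
  simp_rw [hek]
  rw [Finset.sum_comm]
  have horth : Orthonormal ℂ (fun j => (u j : F)) := u.orthonormal.comp_linearIsometry W.subtypeₗᵢ
  calc ∑ j, ∑ k, ‖inner ℂ (u j : F) (S (e k))‖ ^ 2
      ≤ ∑ j, ∑' i, ‖inner ℂ (u j : F) (S (b i))‖ ^ 2 :=
        Finset.sum_le_sum (fun j _ => (one (u j : F)).1)
    _ = ∑' i, ∑ j, ‖inner ℂ (u j : F) (S (b i))‖ ^ 2 :=
        (Summable.tsum_finsetSum (fun j _ => (one (u j : F)).2)).symm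
    _ ≤ ∑' i, ‖S (b i)‖ ^ 2 := by
        apply Summable.tsum_le_tsum _ _ hS
        · intro i
          exact horth.sum_inner_products_le (S (b i)) (s := Finset.univ)
        · exact summable_sum (fun j _ => (one (u j : F)).2)

end Pool.Agent.V1171.HSH
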