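import Mathlib
import Pool.Agent.V1171.HSH.Limit
import Pool.Agent.V1171.HSH.Schatten

set_option autoImplicit false

open MeasureTheory Set Metric Filter Topology Complex ComplexConjugate
open scoped ENNReal

namespace Pool.Agent.V1171.HSH

noncomputable local instance : MeasureSpace UnitAddCircle := ⟨AddCircle.haarAddCircle⟩
local instance : Measure.IsAddHaarMeasure (volume : Measure UnitAddCircle) :=
  inferInstanceAs (Measure.IsAddHaarMeasure AddCircle.haarAddCircle)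
local instance : IsProbabilityMeasure (volume : Measure UnitAddCircle) :=
  inferInstanceAs (IsProbabilityMeasure AddCircle.haarAddCircle)

open UnitAddTorus

variable {n : ℕ}

/-- Real version of the squared norm. -/
noncomputable def Nr (Ω : Set (Fin n → ℂ)) (γ : Fin n → ℤ) : ℝ := (L Ω γ).toReal

theorem Nr_pos {Ω : Set (Fin n → ℂ)} (ho : IsOpen Ω) (hne : Ω.Nonempty) {γ : Fin n → ℤ}
    (h : Gam Ω γ) : 0 < Nr Ω γ :=
  ENNReal.toReal_pos (L_pos ho hne γ).ne' h.2.ne

theorem norm_mon_nsmul {τ γ : Fin n → ℤ} (k : ℕ) {z : Fin n → ℂ} (hz : ∀ j, z j ≠ 0) :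
    ‖mon (γ + (k : ℤ) • τ) z‖ ^ 2 = (‖mon τ z‖ ^ 2) ^ k * ‖mon γ z‖ ^ 2 := by
  induction k with
  | zero => simp
  | succ k ih =>
    have : γ + ((k + 1 : ℕ) : ℤ) • τ = (γ + (k : ℤ) • τ) + τ := by
      push_cast; rw [add_smul, one_smul]; abel
    rw [this, mon_add hz, norm_mul, mul_pow, ih, pow_succ]
    ring

/-- Lower growth bound. -/
theorem growth {Ω : Set (Fin n → ℂ)} (ho : IsOpen Ω) (γ τ : Fin n → ℤ) {t : ℝ} (ht : 0 < t)
    (hV : ∃ z ∈ star Ω, t < ‖mon τ z‖ ^ 2) :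
    ∃ v : ℝ, 0 < v ∧ ∀ k : ℕ, L Ω (γ + (k : ℤ) • τ) < ∞ → t ^ k * v ≤ Nr Ω (γ + (k : ℤ) • τ) := by
  obtain ⟨z0, hz0, hz0t⟩ := hV
  have hso := isOpen_star ho
  set V : Set (Fin n → ℂ) := {z | z ∈ star Ω ∧ t < ‖mon τ z‖ ^ 2} with hVdef
  have hcont : ContinuousOn (fun z => ‖mon τ z‖ ^ 2) (star Ω) :=
    (mon_continuousOn τ (Subset.refl (star Ω))).norm.pow 2
  have hVo : IsOpen V := by
    have := hcont.isOpen_inter_preimage hso (isOpen_Ioi (a := t))
    exact this
  have hVn : V.Nonempty := ⟨z0, hz0, hz0t⟩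
  -- compact part with finite integral
  obtain ⟨r, hr, hball⟩ := Metric.isOpen_iff.mp hVo z0 ⟨hz0, hz0t⟩
  set K : Set (Fin n → ℂ) := closedBall z0 (r / 2) with hK
  have hKV : K ⊆ V := (closedBall_subset_ball (by linarith)).trans hball
  have hKs : K ⊆ star Ω := fun z hz => (hKV hz).1
  have hKc : IsCompact K := isCompact_closedBall z0 (r / 2)
  have hNK : 0 < NK K γ := by
    have h1 := L_eq_NK hKc hKs γ
    have h2 : 0 < L (ball z0 (r / 2)) γ := L_pos isOpen_ball ⟨z0, mem_ball_self (by linarith)⟩ γ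
    have h3 : L (ball z0 (r / 2)) γ ≤ L K γ := lintegral_mono_set ball_subset_closedBall
    have h4 : 0 < ENNReal.ofReal (NK K γ) := by rw [← h1]; exact h2.trans_le h3
    exact ENNReal.ofReal_pos.mp h4
  refine ⟨NK K γ, hNK, ?_⟩
  intro k hfin
  have h1 : t ^ k * NK K γ ≤ NK K (γ + (k : ℤ) • τ) := by
    unfold NK
    rw [← integral_const_mul]
    apply setIntegral_mono_on ((NK_integrable hKc hKs γ).const_mul _)
      (NK_integrable hKc hKs (γ + (k : ℤ) • τ)) hKc.measurableSet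
    intro z hz
    rw [norm_mon_nsmul k (hKs hz).2]
    apply mul_le_mul_of_nonneg_right _ (by positivity)
    exact pow_le_pow_left₀ ht.le (hKV hz).2.le k
  refine h1.trans ?_
  have h2 := L_eq_NK hKc hKs (γ + (k : ℤ) • τ)
  have h3 : L K (γ + (k : ℤ) • τ) ≤ L Ω (γ + (k : ℤ) • τ) :=
    lintegral_mono_set (fun z hz => (hKs hz).1)
  rw [h2] at h3
  exact (ENNReal.ofReal_le_iff_le_toReal hfin.ne).mp h3

/-- Data extracted from the Hankel operator. -/
structure Data (Ω : Set (Fin n → ℂ)) (α : Fin n → ℤ) (A : ℝ) (σ : (Fin n → ℤ) → ℝ) : Prop where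
  A_pos : 0 < A
  σ_nonneg : ∀ γ, 0 ≤ σ γ
  closed : ∀ γ, Gam Ω γ → Gam Ω (γ + α)
  fin : ∀ γ, Gam Ω γ → Gam Ω (γ - α) →
    A * (Nr Ω (γ + α) / Nr Ω γ - Nr Ω γ / Nr Ω (γ - α)) ≤ σ γ
  inf : ∀ γ, Gam Ω γ → ¬ Gam Ω (γ - α) → A * (Nr Ω (γ + α) / Nr Ω γ) ≤ σ γ

theorem Data.closed_iter {Ω : Set (Fin n → ℂ)} {α : Fin n → ℤ} {A : ℝ} {σ : (Fin n → ℤ) → ℝ}
    (D : Data Ω α A σ) {γ : Fin n → ℤ} (h : Gam Ω γ) (k : ℕ) : Gam Ω (γ + (k : ℤ) • α) := by
  induction k with
  | zero => simpa using h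
  | succ k ih =>
    have : γ + ((k + 1 : ℕ) : ℤ) • α = (γ + (k : ℤ) • α) + α := by
      push_cast; rw [add_smul, one_smul]; abel
    rw [this]
    exact D.closed _ ih

theorem exists_pow_gt {q C : ℝ} (hq : 1 < q) : ∃ k : ℕ, C < q ^ k :=
  (tendsto_pow_atTop_atTop_of_one_lt hq).eventually_gt_atTop C |>.exists

theorem Data.up {Ω : Set (Fin n → ℂ)} {α : Fin n → ℤ} {A : ℝ} {σ : (Fin n → ℤ) → ℝ}
    (D : Data Ω α A σ) (ho : IsOpen Ω) (hne : Ω.Nonempty) {γ : Fin n → ℤ} (h : Gam Ω γ)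
    {M M' : ℝ} (hM : 0 < M) (hMM : M < M') (hV : ∃ z ∈ star Ω, M' < ‖mon α z‖ ^ 2) :
    ∃ k : ℕ, M < Nr Ω (γ + (k : ℤ) • α + α) / Nr Ω (γ + (k : ℤ) • α) := by
  by_contra hcon
  push Not at hcon
  obtain ⟨v, hv, hgrow⟩ := growth ho γ α (hM.trans hMM) hV
  have hup : ∀ k : ℕ, Nr Ω (γ + (k : ℤ) • α) ≤ M ^ k * Nr Ω γ := by
    intro k
    induction k with
    | zero => simp
    | succ k ih =>
      have e : γ + ((k + 1 : ℕ) : ℤ) • α = (γ + (k : ℤ) • α) + α := by
        push_cast; rw [add_smul, one_smul]; abel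
      rw [e]
      have h1 := hcon k
      rw [div_le_iff₀ (Nr_pos ho hne (D.closed_iter h k))] at h1
      refine h1.trans ?_
      calc M * Nr Ω (γ + (k : ℤ) • α) ≤ M * (M ^ k * Nr Ω γ) :=
            mul_le_mul_of_nonneg_left ih hM.le
        _ = M ^ (k + 1) * Nr Ω γ := by ring
  obtain ⟨k, hk⟩ := exists_pow_gt (q := M' / M) (C := Nr Ω γ / v) ((one_lt_div hM).mpr hMM)
  have h1 := hgrow k (D.closed_iter h k).2
  have h2 := h1.trans (hup k)
  rw [div_pow, div_lt_div_iff₀ hv (by positivity)] at hk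
  linarith

theorem Data.down {Ω : Set (Fin n → ℂ)} {α : Fin n → ℤ}
    (ho : IsOpen Ω) (hne : Ω.Nonempty) {γ : Fin n → ℤ} (h : Gam Ω γ)
    {m m' : ℝ} (hm : 0 < m) (hmm : m < m') (hW : ∃ z ∈ star Ω, ‖mon α z‖ ^ 2 < m) :
    ∃ k : ℕ, Gam Ω (γ - (k : ℤ) • α) ∧ (Gam Ω (γ - (k : ℤ) • α - α) →
      Nr Ω (γ - (k : ℤ) • α) / Nr Ω (γ - (k : ℤ) • α - α) < m') := by
  by_contra hcon
  push Not at hcon
  have hall : ∀ k : ℕ, Gam Ω (γ - (k : ℤ) • α) := by
    intro k
    induction k with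
    | zero => simpa using h
    | succ k ih =>
      have e : γ - ((k + 1 : ℕ) : ℤ) • α = γ - (k : ℤ) • α - α := by
        push_cast; rw [add_smul, one_smul]; abel
      rw [e]
      exact (hcon k ih).1
  have hm' : 0 < m' := hm.trans hmm
  have hV : ∃ z ∈ star Ω, 1 / m < ‖mon (-α) z‖ ^ 2 := by
    obtain ⟨z, hz, hzm⟩ := hW
    refine ⟨z, hz, ?_⟩
    rw [mon_neg, norm_inv, inv_pow, ← one_div]
    have := norm_pos_iff.mpr (mon_ne α hz.2)
    exact one_div_lt_one_div_of_lt (by positivity) hzm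
  obtain ⟨v, hv, hgrow⟩ := growth ho γ (-α) (t := 1 / m) (by positivity) hV
  have hup : ∀ k : ℕ, Nr Ω (γ - (k : ℤ) • α) ≤ (1 / m') ^ k * Nr Ω γ := by
    intro k
    induction k with
    | zero => simp
    | succ k ih =>
      have e : γ - ((k + 1 : ℕ) : ℤ) • α = γ - (k : ℤ) • α - α := by
        push_cast; rw [add_smul, one_smul]; abel
      rw [e]
      have h0 : Gam Ω (γ - (k : ℤ) • α - α) := by
        have := hall (k + 1)
        rwa [e] at this
      have h1 := (hcon k (hall k)).2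
      rw [le_div_iff₀ (Nr_pos ho hne h0)] at h1
      have h2 : Nr Ω (γ - (k : ℤ) • α - α) ≤ 1 / m' * Nr Ω (γ - (k : ℤ) • α) := by
        rw [one_div, le_inv_mul_iff₀ hm']
        exact h1
      refine h2.trans ?_
      calc 1 / m' * Nr Ω (γ - (k : ℤ) • α) ≤ 1 / m' * ((1 / m') ^ k * Nr Ω γ) :=
            mul_le_mul_of_nonneg_left ih (by positivity)
        _ = (1 / m') ^ (k + 1) * Nr Ω γ := by ring
  obtain ⟨k, hk⟩ := exists_pow_gt (q := m' / m) (C := Nr Ω γ / v) ((one_lt_div hm).mpr hmm)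
  have e2 : γ + (k : ℤ) • (-α) = γ - (k : ℤ) • α := by rw [smul_neg]; abel
  have h1 := hgrow k (by rw [e2]; exact (hall k).2)
  rw [e2] at h1
  have h2 := h1.trans (hup k)
  rw [div_pow, div_lt_div_iff₀ hv (by positivity)] at hk
  rw [one_div, one_div, inv_pow, inv_pow, inv_mul_le_iff₀ (by positivity)] at h2
  have h3 : m ^ k * ((m' ^ k)⁻¹ * Nr Ω γ) = m ^ k * Nr Ω γ / m' ^ k := by
    rw [div_eq_mul_inv]; ring
  rw [h3, le_div_iff₀ (by positivity)] at h2
  linarith

/-- Telescoping along a line. -/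
theorem Data.line {Ω : Set (Fin n → ℂ)} {α : Fin n → ℤ} {A : ℝ} {σ : (Fin n → ℤ) → ℝ}
    (D : Data Ω α A σ) (ho : IsOpen Ω) (hne : Ω.Nonempty) {γ : Fin n → ℤ} (h : Gam Ω γ)
    {m m' M M' : ℝ} (hm : 0 < m) (hmm : m < m') (hmM : m' < M) (hMM : M < M')
    (hW : ∃ z ∈ star Ω, ‖mon α z‖ ^ 2 < m) (hV : ∃ z ∈ star Ω, M' < ‖mon α z‖ ^ 2) :
    ∃ (g : Fin n → ℤ) (c : ℤ) (l : ℕ), g = γ + c • α ∧ (∀ i : ℕ, Gam Ω (g + (i : ℤ) • α)) ∧
      A * (M - m') ≤ ∑ i ∈ Finset.range (l + 1), σ (g + (i : ℤ) • α) := by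
  obtain ⟨k, hk1, hk2⟩ := Data.down ho hne h hm hmm hW
  set g := γ - (k : ℤ) • α with hg
  obtain ⟨l, hl⟩ := D.up ho hne hk1 (by linarith : (0 : ℝ) < M) hMM hV
  refine ⟨g, -(k : ℤ), l, by rw [hg, neg_smul]; abel, fun i => D.closed_iter hk1 i, ?_⟩
  -- telescoping
  have key : ∀ j : ℕ, A * (Nr Ω (g + (j : ℤ) • α + α) / Nr Ω (g + (j : ℤ) • α) - m') ≤
      ∑ i ∈ Finset.range (j + 1), σ (g + (i : ℤ) • α) := by
    intro j
    induction j with
    | zero =>
      simp only [zero_add, Finset.range_one, Finset.sum_singleton, Nat.cast_zero, zero_smul, add_zero]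
      by_cases hgam : Gam Ω (g - α)
      · have h1 := D.fin g hk1 hgam
        have h2 := hk2 hgam
        have h3 : A * (Nr Ω (g + α) / Nr Ω g - m') ≤
            A * (Nr Ω (g + α) / Nr Ω g - Nr Ω g / Nr Ω (g - α)) := by
          apply mul_le_mul_of_nonneg_left _ D.A_pos.le
          linarith
        exact h3.trans h1
      · have h1 := D.inf g hk1 hgam
        have h3 : A * (Nr Ω (g + α) / Nr Ω g - m') ≤ A * (Nr Ω (g + α) / Nr Ω g) := by
          apply mul_le_mul_of_nonneg_left _ D.A_pos.le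
          linarith
        exact h3.trans h1
    | succ j ih =>
      rw [Finset.sum_range_succ]
      have e : g + ((j + 1 : ℕ) : ℤ) • α = g + (j : ℤ) • α + α := by
        push_cast; rw [add_smul, one_smul]; abel
      have hG1 : Gam Ω (g + ((j + 1 : ℕ) : ℤ) • α) := D.closed_iter hk1 (j + 1)
      have e2 : g + ((j + 1 : ℕ) : ℤ) • α - α = g + (j : ℤ) • α := by rw [e]; abel
      have hG0 : Gam Ω (g + ((j + 1 : ℕ) : ℤ) • α - α) := by
        rw [e2]; exact D.closed_iter hk1 j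
      have h1 := D.fin _ hG1 hG0
      rw [e2] at h1
      rw [← e] at ih
      nlinarith [D.A_pos]
  have h1 := key l
  have h2 : A * (M - m') ≤ A * (Nr Ω (g + (l : ℤ) • α + α) / Nr Ω (g + (l : ℤ) • α) - m') := by
    apply mul_le_mul_of_nonneg_left _ D.A_pos.le
    linarith
  exact h2.trans h1

/-- `|z^α|` takes two different values. -/
theorem exists_values {Ω : Set (Fin n → ℂ)} (ho : IsOpen Ω) (hne : Ω.Nonempty) {α : Fin n → ℤ}
    (hα : α ≠ 0) : ∃ z ∈ star Ω, ∃ w ∈ star Ω, ‖mon α z‖ ^ 2 < ‖mon α w‖ ^ 2 := by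
  obtain ⟨l, hl⟩ := Function.ne_iff.mp hα
  have hl' : α l ≠ 0 := by simpa using hl
  obtain ⟨z, hz⟩ := star_nonempty ho hne
  have hso := isOpen_star ho
  -- scale one coordinate
  have hcont : Continuous (fun s : ℝ => Function.update z l (((1 + s : ℝ) : ℂ) * z l)) := by
    apply Continuous.update continuous_const
    fun_prop
  have h0 : Function.update z l (((1 + 0 : ℝ) : ℂ) * z l) = z := by simp
  have hev : ∀ᶠ s : ℝ in 𝓝 0, Function.update z l (((1 + s : ℝ) : ℂ) * z l) ∈ star Ω := by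
    apply hcont.continuousAt.eventually
    show ∀ᶠ y in 𝓝 (Function.update z l (((1 + 0 : ℝ) : ℂ) * z l)), y ∈ star Ω
    rw [h0]
    exact hso.mem_nhds hz
  have hev2 : ∀ᶠ s : ℝ in 𝓝[>] 0, Function.update z l (((1 + s : ℝ) : ℂ) * z l) ∈ star Ω ∧ 0 < s := by
    filter_upwards [nhdsWithin_le_nhds hev, self_mem_nhdsWithin] with s h1 h2 using ⟨h1, h2⟩
  obtain ⟨s, hs1, hs2⟩ := hev2.exists
  set w := Function.update z l (((1 + s : ℝ) : ℂ) * z l) with hw
  have hnorm : ‖mon α w‖ = (1 + s) ^ (α l) * ‖mon α z‖ := by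
    unfold mon
    rw [← Finset.mul_prod_erase _ (fun j => w j ^ α j) (Finset.mem_univ l),
      ← Finset.mul_prod_erase _ (fun j => z j ^ α j) (Finset.mem_univ l), norm_mul, norm_mul]
    have h1 : ∏ j ∈ Finset.univ.erase l, w j ^ α j = ∏ j ∈ Finset.univ.erase l, z j ^ α j := by
      apply Finset.prod_congr rfl
      intro j hj
      rw [hw, Function.update_of_ne (Finset.ne_of_mem_erase hj)]
    have h2 : w l = ((1 + s : ℝ) : ℂ) * z l := by rw [hw, Function.update_self]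
    rw [h1, h2, mul_zpow, norm_mul, norm_zpow, norm_real, Real.norm_eq_abs,
      abs_of_pos (by linarith), mul_assoc]
  have hzpos : 0 < ‖mon α z‖ := norm_pos_iff.mpr (mon_ne α hz.2)
  have hs3 : (1 : ℝ) < 1 + s := by linarith
  rcases lt_or_gt_of_ne hl' with h | h
  · refine ⟨w, hs1, z, hz, ?_⟩
    rw [hnorm]
    have h1 : (1 + s) ^ (α l) < 1 := zpow_lt_one_of_neg₀ hs3 h
    have h2 : 0 < (1 + s) ^ (α l) := by positivity
    apply pow_lt_pow_left₀ _ (by positivity) two_ne_zero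
    nlinarith
  · refine ⟨z, hz, w, hs1, ?_⟩
    rw [hnorm]
    have h1 : 1 < (1 + s) ^ (α l) := one_lt_zpow₀ hs3 h
    apply pow_lt_pow_left₀ _ (by positivity) two_ne_zero
    nlinarith

/-- Nonnegative exponents belong to `Gam` for bounded `Ω`. -/
theorem gam_of_nonneg {Ω : Set (Fin n → ℂ)} (ho : IsOpen Ω) (hb : Bornology.IsBounded Ω)
    {γ : Fin n → ℤ} (h : ∀ j, 0 ≤ γ j) : Gam Ω γ := by
  refine ⟨fun j _ => h j, ?_⟩
  obtain ⟨R, hR⟩ := hb.subset_closedBall 0
  obtain ⟨C, hC⟩ : ∃ C : ℝ, ∀ z ∈ Ω, ‖mon γ z‖ ^ 2 ≤ C := by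
    have hc : ContinuousOn (fun z : Fin n → ℂ => ‖mon γ z‖ ^ 2) (closedBall 0 R) := by
      have h1 : Hol (univ : Set (Fin n → ℂ)) γ := fun j _ => h j
      exact ((mon_diffOn h1).continuousOn.mono (subset_univ _)).norm.pow 2
    obtain ⟨C, hC⟩ := (isCompact_closedBall (0 : Fin n → ℂ) R).exists_bound_of_continuousOn hc
    refine ⟨C, fun z hz => (le_abs_self _).trans (hC z (hR hz))⟩
  unfold L
  calc ∫⁻ z in Ω, ENNReal.ofReal (‖mon γ z‖ ^ 2) ≤ ∫⁻ _ in Ω, ENNReal.ofReal C := by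
        apply setLIntegral_mono' ho.measurableSet
        intro z hz
        exact ENNReal.ofReal_le_ofReal (hC z hz)
    _ = ENNReal.ofReal C * volume Ω := setLIntegral_const _ _
    _ < ∞ := ENNReal.mul_lt_top ENNReal.ofReal_lt_top hb.measure_lt_top

/-- The Hilbert-Schmidt condition is incompatible with a nonconstant symbol. -/
theorem Data.false {Ω : Set (Fin n → ℂ)} {α : Fin n → ℤ} {A : ℝ} {σ : (Fin n → ℤ) → ℝ}
    (D : Data Ω α A σ) (hn : 2 ≤ n) (ho : IsOpen Ω) (hb : Bornology.IsBounded Ω)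
    (hne : Ω.Nonempty) (hα : α ≠ 0) {C : ℝ}
    (hC : ∀ F : Finset (Fin n → ℤ), (∀ γ ∈ F, Gam Ω γ) → ∑ γ ∈ F, σ γ ≤ C) : False := by
  obtain ⟨z1, hz1, z2, hz2, hlt⟩ := exists_values ho hne hα
  set x1 := ‖mon α z1‖ ^ 2 with hx1
  set x2 := ‖mon α z2‖ ^ 2 with hx2
  have hx10 : 0 ≤ x1 := by positivity
  set d := (x2 - x1) / 5 with hd
  have hd0 : 0 < d := by rw [hd]; linarith
  have hW : ∃ z ∈ star Ω, ‖mon α z‖ ^ 2 < x1 + d := ⟨z1, hz1, by linarith⟩
  have hV : ∃ z ∈ star Ω, x1 + 4 * d < ‖mon α z‖ ^ 2 := ⟨z2, hz2, by rw [← hx2]; linarith⟩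
  -- choose the direction
  obtain ⟨l, hl⟩ := Function.ne_iff.mp hα
  have hl' : α l ≠ 0 := by simpa using hl
  obtain ⟨i, hil⟩ : ∃ i : Fin n, i ≠ l := by
    by_cases h0 : l = ⟨0, by omega⟩
    · exact ⟨⟨1, by omega⟩, by rw [h0]; simp⟩
    · exact ⟨⟨0, by omega⟩, fun h => h0 h.symm⟩
  set δ : ℕ → (Fin n → ℤ) := fun m => (m : ℤ) • Pi.single i 1 with hδ
  have hδG : ∀ m, Gam Ω (δ m) := by
    intro m
    apply gam_of_nonneg ho hb
    intro j
    simp only [hδ, Pi.smul_apply, smul_eq_mul]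
    by_cases hj : j = i
    · subst hj; simp
    · simp [hj]
  have hline := fun m => D.line ho hne (hδG m) (m := x1 + d) (m' := x1 + 2 * d) (M := x1 + 3 * d)
    (M' := x1 + 4 * d) (by linarith) (by linarith) (by linarith) (by linarith) hW hV
  choose g c len hg1 hg2 hg3 using hline
  have hgap : x1 + 3 * d - (x1 + 2 * d) = d := by ring
  rw [hgap] at hg3
  -- injectivity
  have hinj : ∀ m m' : ℕ, ∀ i1 i2 : ℕ, g m + (i1 : ℤ) • α = g m' + (i2 : ℤ) • α → m = m' ∧ i1 = i2 := by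
    intro m m' i1 i2 h
    rw [hg1, hg1] at h
    have hll := congrFun h l
    have hii := congrFun h i
    simp only [hδ, Pi.add_apply, Pi.smul_apply, smul_eq_mul, Pi.single_eq_of_ne hil.symm,
      mul_zero, zero_add, Pi.single_eq_same, mul_one] at hll hii
    have h1 : c m + i1 = c m' + i2 := by
      have : (c m + i1) * α l = (c m' + i2) * α l := by linarith
      exact mul_right_cancel₀ hl' this
    have h2 : (m : ℤ) = m' := by
      have : (c m + i1) * α i = (c m' + i2) * α i := by rw [h1]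
      linarith
    have h3 : m = m' := by exact_mod_cast h2
    subst h3
    refine ⟨rfl, ?_⟩
    have : (i1 : ℤ) = i2 := by linarith
    exact_mod_cast this
  -- the sum over many lines
  have hbound : ∀ M : ℕ, (M : ℝ) * (A * d) ≤ C := by
    intro M
    set P : Finset (Σ _ : ℕ, ℕ) := (Finset.range M).sigma (fun m => Finset.range (len m + 1)) with hP
    set φ : (Σ _ : ℕ, ℕ) → (Fin n → ℤ) := fun p => g p.1 + (p.2 : ℤ) • α with hφ
    have hφinj : Set.InjOn φ P := by
      rintro ⟨m, i1⟩ _ ⟨m', i2⟩ _ h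
      obtain ⟨h1, h2⟩ := hinj m m' i1 i2 h
      subst h1 h2
      rfl
    have h1 := hC (P.image φ) (by
      intro γ hγ
      rw [Finset.mem_image] at hγ
      obtain ⟨⟨m, i1⟩, -, rfl⟩ := hγ
      exact hg2 m i1)
    rw [Finset.sum_image hφinj, hP, Finset.sum_sigma] at h1
    refine le_trans ?_ h1
    calc (M : ℝ) * (A * d) = ∑ m ∈ Finset.range M, A * d := by simp
      _ ≤ _ := Finset.sum_le_sum (fun m _ => hg3 m)
  have hAd : 0 < A * d := mul_pos D.A_pos hd0
  obtain ⟨M, hM⟩ := exists_nat_gt (C / (A * d))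
  have h1 := hbound M
  rw [div_lt_iff₀ hAd] at hM
  linarith

/-- The main theorem. -/
theorem main' {Ω : Set (Fin n → ℂ)} (hn : 2 ≤ n) (ho : IsOpen Ω) (hc : IsConnected Ω)
    (hb : Bornology.IsBounded Ω) (hR : IsReinhardt Ω)
    {f : (Fin n → ℂ) → ℂ} (hf : DifferentiableOn ℂ f Ω)
    (hdense : Dense {G : bergman Ω | ∃ H, IsHankelValue Ω (fun z => conj (f z))
      (G : Lp ℂ 2 (volume.restrict Ω)) H})
    (S : bergman Ω →L[ℂ] Lp ℂ 2 (volume.restrict Ω))
    (hS : ∀ (G : bergman Ω) (H : Lp ℂ 2 (volume.restrict Ω)),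
      IsHankelValue Ω (fun z => conj (f z)) (G : Lp ℂ 2 (volume.restrict Ω)) H → S G = H)
    {B : ℝ} (hB : ∀ (F : Finset (Fin n → ℤ)) (e : F → bergman Ω), Orthonormal ℂ e →
      ∑ k, ‖S (e k)‖ ^ 2 ≤ B)
    {G H : Lp ℂ 2 (volume.restrict Ω)} (hGH : IsHankelValue Ω (fun z => conj (f z)) G H) :
    H = 0 := by
  have hnpos : 0 < n := by omega
  have hne : (Ωᶜ).Nonempty := by
    rw [nonempty_compl]
    intro h
    rw [h] at hb
    have : Nonempty (Fin n) := ⟨⟨0, hnpos⟩⟩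
    exact NormedSpace.unbounded_univ ℂ (Fin n → ℂ) hb
  -- all nonzero Fourier components of f vanish
  have hzero : ∀ α : Fin n → ℤ, α ≠ 0 → ∀ z ∈ star Ω, avg α f z = 0 := by
    intro α hα
    obtain ⟨a, ha, haH⟩ := avg_eq ho hc hR hf α
    by_cases ha0 : a = 0
    · intro z hz
      rw [ha z hz, ha0, zero_mul]
    exfalso
    have hHolα : Hol Ω α := by
      by_contra h
      exact ha0 (haH h)
    have hlim := fun (γ : Fin n → ℤ) (hγ : Gam Ω γ) =>
      limit_ineq ho hc hb hne hR hf hdense S hS ha ha0 hγ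
    classical
    set σ : (Fin n → ℤ) → ℝ := fun γ => if h : Gam Ω γ then ‖S (eb ho h)‖ ^ 2 / Nr Ω γ else 0 with hσ
    have D : Data Ω α (‖a‖ ^ 2) σ := by
      refine ⟨?_, ?_, ?_, ?_, ?_⟩
      · have := norm_pos_iff.mpr ha0; positivity
      · intro γ
        simp only [hσ]
        split_ifs with h
        · have := Nr_pos ho hc.nonempty h
          positivity
        · exact le_rfl
      · intro γ hγ
        refine ⟨fun j hj => ?_, (hlim γ hγ).1⟩
        have h1 := hγ.1 j hj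
        have h2 := hHolα j hj
        simp only [Pi.add_apply]
        omega
      · intro γ hγ hγ'
        have h1 := (hlim γ hγ).2.1 hγ'
        simp only [hσ, dif_pos hγ]
        have hp := Nr_pos ho hc.nonempty hγ
        rw [le_div_iff₀ hp]
        refine le_trans (le_of_eq ?_) h1
        unfold Nr at hp ⊢
        field_simp
      · intro γ hγ hγ'
        have h1 := (hlim γ hγ).2.2 hγ'
        simp only [hσ, dif_pos hγ]
        have hp := Nr_pos ho hc.nonempty hγ
        rw [le_div_iff₀ hp]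
        refine le_trans (le_of_eq ?_) h1
        unfold Nr at hp ⊢
        field_simp
    apply D.false hn ho hb hc.nonempty hα (C := B)
    intro F hF
    -- orthonormal family
    set e : F → bergman Ω := fun γ =>
      (((1 / √(Nr Ω γ) : ℝ)) : ℂ) • eb ho (hF γ γ.2) with he
    have hNr : ∀ γ : F, 0 < Nr Ω γ := fun γ => Nr_pos ho hc.nonempty (hF γ γ.2)
    have horth : Orthonormal ℂ e := by
      constructor
      · intro γ
        have h1 : ‖e γ‖ ^ 2 = 1 := by
          simp only [he]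
          rw [norm_smul, mul_pow, norm_eb, norm_real, Real.norm_eq_abs, sq_abs, div_pow,
            Real.sq_sqrt (hNr γ).le]
          have := (hNr γ).ne'
          unfold Nr at this ⊢
          field_simp
        have h2 : 0 ≤ ‖e γ‖ := norm_nonneg _
        nlinarith
      · intro γ γ' hγγ
        have hgen : ∀ (c d : ℂ) (x y : bergman Ω), inner ℂ x y = (0 : ℂ) →
            inner ℂ (c • x) (d • y) = (0 : ℂ) := by
          intro c d x y h
          have h0 : inner ℂ (x : Lp ℂ 2 (volume.restrict Ω)) (y : Lp ℂ 2 (volume.restrict Ω)) = (0:ℂ) := h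
          show inner ℂ (c • (x : Lp ℂ 2 (volume.restrict Ω))) (d • (y : Lp ℂ 2 (volume.restrict Ω))) = (0:ℂ)
          rw [inner_smul_left, inner_smul_right, h0]
          simp
        simp only [he]
        exact hgen _ _ _ _ (inner_eb_ne ho hR _ _ (fun h => hγγ (Subtype.ext h)))
    have h1 := hB F e horth
    refine le_trans (le_of_eq ?_) h1
    rw [← Finset.sum_coe_sort]
    apply Finset.sum_congr rfl
    intro γ _
    simp only [hσ, dif_pos (hF γ γ.2), he]
    rw [map_smul, norm_smul, mul_pow, norm_real, Real.norm_eq_abs, sq_abs, div_pow,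
      Real.sq_sqrt (hNr γ).le]
    ring
  -- f is constant
  have hinv : ∀ z ∈ star Ω, ∀ t : UnitAddTorus (Fin n), f (rot t z) = f z := by
    intro z hz
    set Fz : C(UnitAddTorus (Fin n), ℂ) := ⟨fun t => f (rot t z), continuous_g_rot hR hf.continuousOn hz.1⟩
      with hFz
    have hcoef : ∀ α : Fin n → ℤ, α ≠ 0 → mFourierCoeff Fz α = 0 := by
      intro α hα
      have := hzero α hα z hz
      unfold avg at this
      unfold mFourierCoeff
      simpa [hFz] using this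
    have hsumm : Summable (mFourierCoeff Fz) := by
      apply summable_of_ne_finset_zero (s := {0})
      intro α hα
      exact hcoef α (by simpa using hα)
    have hF := hasSum_mFourier_series_of_summable hsumm
    have hF2 : HasSum (fun i => mFourierCoeff Fz i • mFourier i) (mFourierCoeff Fz 0 • mFourier 0) := by
      apply hasSum_single
      intro α hα
      have h00 : mFourierCoeff Fz α = 0 := hcoef α hα
      show mFourierCoeff Fz α • (mFourier α : C(UnitAddTorus (Fin n), ℂ)) = 0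
      rw [h00]
      exact zero_smul ℂ (mFourier α : C(UnitAddTorus (Fin n), ℂ))
    have hF3 := hF.unique hF2
    have hF4 : ∀ t, Fz t = mFourierCoeff Fz 0 := by
      intro t
      have h3 : Fz t = (mFourierCoeff Fz 0 • (mFourier 0 : C(UnitAddTorus (Fin n), ℂ))) t :=
        congrArg (fun g : C(UnitAddTorus (Fin n), ℂ) => g t) hF3
      rw [h3]
      generalize mFourierCoeff Fz 0 = c
      rw [mFourier_zero]
      simp
    intro t
    have e1 : f (rot t z) = Fz t := rfl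
    have e2 : f z = Fz 0 := by rw [hFz]; simp [rot_zero]
    rw [e1, e2, hF4, hF4]
  have hfd : ∀ z ∈ star Ω, fderiv ℂ f z = 0 := fun z hz =>
    fderiv_zero_of_invariant (hf.differentiableAt (ho.mem_nhds hz.1)) hz.2 (hinv z hz)
  obtain ⟨z0, hz0⟩ := star_nonempty ho hc.nonempty
  obtain ⟨r, hr, hball⟩ := Metric.isOpen_iff.mp (isOpen_star ho) z0 hz0
  have hloc : ∀ z ∈ ball z0 r, f z = f z0 := by
    intro z hz
    exact isOpen_ball.is_const_of_fderiv_eq_zero (convex_ball z0 r).isPreconnected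
      (hf.mono (hball.trans (fun w hw => hw.1))) (fun w hw => hfd w (hball hw)) hz (mem_ball_self hr)
  have hconst : ∀ z ∈ Ω, f z - f z0 = 0 := by
    apply identity ho hc.isPreconnected (hf.sub_const _) hz0.1
    filter_upwards [isOpen_ball.mem_nhds (mem_ball_self hr)] with z hz
    rw [hloc z hz, sub_self]; rfl
  -- conclusion
  obtain ⟨hG, hH, K, hK, hGK⟩ := hGH
  have hHmem : H ∈ bergman Ω := by
    have h1 : H = conj (f z0) • G - K := by
      apply Lp.ext
      filter_upwards [hGK, Lp.coeFn_sub (conj (f z0) • G) K, Lp.coeFn_smul (conj (f z0)) G,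
        ae_restrict_mem ho.measurableSet] with z h1 h2 h3 h4
      rw [h2, Pi.sub_apply, h3, Pi.smul_apply, smul_eq_mul]
      have h5 : f z = f z0 := sub_eq_zero.mp (hconst z h4)
      rw [h5] at h1
      rw [h1]
      ring
    rw [h1]
    exact (bergman Ω).sub_mem ((bergman Ω).smul_mem _ hG) hK
  have h2 : inner ℂ H H = 0 := (Submodule.mem_orthogonal _ _).mp hH H hHmem
  exact inner_self_eq_zero.mp h2

end Pool.Agent.V1171.HSH
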