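import Mathlib
import Pool.Agent.V1171.HSH.Final

set_option autoImplicit false

open MeasureTheory Set Metric Filter Topology Complex ComplexConjugate
open scoped ENNReal

namespace Pool.Agent.V1171.HSH

/-- Partial sums of the expansion. -/
theorem norm_sub_sum_sq {E : Type*} [NormedAddCommGroup E] [InnerProductSpace ℂ E] {ι : Type*}
    {b : ι → E} (hb : Orthonormal ℂ b) (x : E) (s : Finset ι) :
    ‖x - ∑ i ∈ s, inner ℂ (b i) x • b i‖ ^ 2 = ‖x‖ ^ 2 - ∑ i ∈ s, ‖inner ℂ (b i) x‖ ^ 2 := by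
  classical
  set y := ∑ i ∈ s, inner ℂ (b i) x • b i with hy
  have h1 : inner ℂ y x = ((∑ i ∈ s, ‖inner ℂ (b i) x‖ ^ 2 : ℝ) : ℂ) := by
    rw [hy, sum_inner]
    push_cast
    apply Finset.sum_congr rfl
    intro i _
    rw [inner_smul_left]
    exact Complex.conj_mul' _
  have h2 : inner ℂ y y = ((∑ i ∈ s, ‖inner ℂ (b i) x‖ ^ 2 : ℝ) : ℂ) := by
    rw [hy, hb.inner_sum]
    push_cast
    apply Finset.sum_congr rfl
    intro i _
    exact Complex.conj_mul' _
  have h3 : ‖y‖ ^ 2 = ∑ i ∈ s, ‖inner ℂ (b i) x‖ ^ 2 := by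
    rw [← inner_self_eq_norm_sq (𝕜 := ℂ) y, h2]
    exact Complex.ofReal_re _
  rw [norm_sub_sq (𝕜 := ℂ), h3]
  have h4 : RCLike.re (inner ℂ x y) = ∑ i ∈ s, ‖inner ℂ (b i) x‖ ^ 2 := by
    rw [← inner_conj_symm, h1, Complex.conj_ofReal]
    exact Complex.ofReal_re _
  rw [h4]
  ring

theorem sum_le_of_parseval {E F : Type*} [NormedAddCommGroup E] [InnerProductSpace ℂ E]
    [NormedAddCommGroup F] [InnerProductSpace ℂ F] [CompleteSpace F] {ι : Type*}
    {b : ι → E} (hb : Orthonormal ℂ b)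
    (hP : ∀ x, HasSum (fun i => ‖inner ℂ (b i) x‖ ^ 2) (‖x‖ ^ 2))
    (S : E →L[ℂ] F) (hS : Summable fun i => ‖S (b i)‖ ^ 2)
    {κ : Type*} [Fintype κ] (e : κ → E) (he : Orthonormal ℂ e) :
    ∑ k, ‖S (e k)‖ ^ 2 ≤ ∑' i, ‖S (b i)‖ ^ 2 := by
  classical
  set J : E →ₗᵢ[ℂ] UniformSpace.Completion E := UniformSpace.Completion.toComplₗᵢ with hJ
  have hJr : DenseRange J := UniformSpace.Completion.denseRange_coe
  have hJu : IsUniformInducing J := UniformSpace.Completion.isUniformInducing_coe E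
  have hv : Orthonormal ℂ (J ∘ b) := hb.comp_linearIsometry J
  have hsp : ⊤ ≤ (Submodule.span ℂ (Set.range (J ∘ b))).topologicalClosure := by
    intro y _
    have hcl : ∀ x : E, J x ∈ (Submodule.span ℂ (Set.range (J ∘ b))).topologicalClosure := by
      intro x
      have h1 : Tendsto (fun s : Finset ι => ∑ i ∈ s, inner ℂ (b i) x • b i) atTop (𝓝 x) := by
        rw [tendsto_iff_norm_sub_tendsto_zero]
        have h2 : Tendsto (fun s : Finset ι => ‖x - ∑ i ∈ s, inner ℂ (b i) x • b i‖ ^ 2) atTop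
            (𝓝 0) := by
          simp_rw [norm_sub_sum_sq hb]
          have := (tendsto_const_nhds (x := ‖x‖ ^ 2)).sub (hP x)
          simpa using this
        have h3 := h2.sqrt
        simp only [Real.sqrt_zero] at h3
        refine h3.congr (fun s => ?_)
        rw [Real.sqrt_sq (norm_nonneg _), norm_sub_rev]
      have h4 : Tendsto (fun s : Finset ι => J (∑ i ∈ s, inner ℂ (b i) x • b i)) atTop (𝓝 (J x)) :=
        (J.continuous.tendsto x).comp h1
      apply mem_closure_of_tendsto h4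
      filter_upwards with s
      rw [map_sum]
      apply Submodule.sum_mem
      intro i _
      rw [map_smul]
      exact Submodule.smul_mem _ _ (Submodule.subset_span ⟨i, rfl⟩)
    have h5 : closure (Set.range J) ⊆
        (Submodule.span ℂ (Set.range (J ∘ b))).topologicalClosure := by
      apply closure_minimal _ (Submodule.isClosed_topologicalClosure _)
      rintro _ ⟨x, rfl⟩
      exact hcl x
    exact h5 (hJr y)
  set bb := HilbertBasis.mk hv hsp with hbb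
  have hbbi : ∀ i, bb i = J (b i) := fun i => by rw [hbb, HilbertBasis.coe_mk]; rfl
  set T : UniformSpace.Completion E →L[ℂ] F := S.extend J.toContinuousLinearMap with hT
  have hTJ : ∀ x, T (J x) = S x := fun x =>
    ContinuousLinearMap.extend_eq S (e := J.toContinuousLinearMap) hJr hJu x
  have h := sum_le_of_basis bb T (by simpa only [hbbi, hTJ] using hS) (fun k => J (e k))
    (he.comp_linearIsometry J)
  simpa only [hbbi, hTJ] using h

variable {n : ℕ}

section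
variable {Ω : Set (Fin n → ℂ)}

theorem ip_congr {g g' h h' : (Fin n → ℂ) → ℂ} (hg : g =ᵐ[volume.restrict Ω] g')
    (hh : h =ᵐ[volume.restrict Ω] h') : ip Ω g h = ip Ω g' h' := by
  apply integral_congr_ae
  filter_upwards [hg, hh] with z h1 h2
  rw [h1, h2]

theorem nsq_congr {h h' : (Fin n → ℂ) → ℂ} (hh : h =ᵐ[volume.restrict Ω] h') :
    nsq Ω h = nsq Ω h' := by
  apply integral_congr_ae
  filter_upwards [hh] with z h2
  rw [h2]

theorem inner_Lp {G H : Lp ℂ 2 (volume.restrict Ω)} {g h : (Fin n → ℂ) → ℂ}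
    (hg : G =ᵐ[volume.restrict Ω] g) (hh : H =ᵐ[volume.restrict Ω] h) :
    inner ℂ G H = ip Ω g h := by
  rw [L2.inner_def]
  apply integral_congr_ae
  filter_upwards [hg, hh] with z h1 h2
  rw [h1, h2, RCLike.inner_apply, mul_comm]

theorem norm_Lp {H : Lp ℂ 2 (volume.restrict Ω)} {h : (Fin n → ℂ) → ℂ}
    (hh : H =ᵐ[volume.restrict Ω] h) : ‖H‖ ^ 2 = nsq Ω h := by
  rw [← inner_self_eq_norm_sq (𝕜 := ℂ) H, inner_Lp hh hh]
  unfold ip nsq
  have h1 : ∫ z in Ω, (starRingEnd ℂ) (h z) * h z = ((∫ z in Ω, ‖h z‖ ^ 2 : ℝ) : ℂ) := by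
    rw [← integral_complex_ofReal]
    congr 1
    ext z
    rw [Complex.conj_mul']
    push_cast
    rfl
  rw [h1]
  simp

theorem IsBergman.ofLp {g : (Fin n → ℂ) → ℂ} (hg : DifferentiableOn ℂ g Ω)
    {G : Lp ℂ 2 (volume.restrict Ω)} (h : G =ᵐ[volume.restrict Ω] g) : IsBergman Ω g :=
  ⟨hg, (memLp_congr_ae h).mp (Lp.memLp G)⟩

/-- The class of an element of the Bergman space. -/
noncomputable def cls {g : (Fin n → ℂ) → ℂ} (hg : IsBergman Ω g) : bergman Ω :=
  ⟨MemLp.toLp g hg.2, g, hg.1, MemLp.coeFn_toLp hg.2⟩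

theorem cls_ae {g : (Fin n → ℂ) → ℂ} (hg : IsBergman Ω g) :
    ((cls hg : bergman Ω) : Lp ℂ 2 (volume.restrict Ω)) =ᵐ[volume.restrict Ω] g :=
  MemLp.coeFn_toLp hg.2

theorem exists_rep (G : bergman Ω) : ∃ g, IsBergman Ω g ∧
    ((G : Lp ℂ 2 (volume.restrict Ω)) : (Fin n → ℂ) → ℂ) =ᵐ[volume.restrict Ω] g := by
  obtain ⟨g, hg, h⟩ := G.2
  exact ⟨g, IsBergman.ofLp hg h, h⟩

/-- A representative. -/
noncomputable def rep (G : bergman Ω) : (Fin n → ℂ) → ℂ := (exists_rep G).choose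

theorem rep_b (G : bergman Ω) : IsBergman Ω (rep G) := (exists_rep G).choose_spec.1

theorem rep_ae (G : bergman Ω) :
    ((G : Lp ℂ 2 (volume.restrict Ω)) : (Fin n → ℂ) → ℂ) =ᵐ[volume.restrict Ω] rep G :=
  (exists_rep G).choose_spec.2

theorem value_of {φ g h : (Fin n → ℂ) → ℂ} (ho : IsOpen Ω) (H : IsHankel Ω φ g h) :
    IsHankelValue Ω φ (cls H.1 : Lp ℂ 2 (volume.restrict Ω)) (MemLp.toLp h H.2.1) := by
  refine ⟨(cls H.1).2, ?_, ?_⟩
  · rw [Submodule.mem_orthogonal]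
    intro K hK
    have h1 := rep_ae ⟨K, hK⟩
    rw [inner_Lp (h1) (MemLp.coeFn_toLp H.2.1)]
    exact H.2.2.1 _ (rep_b ⟨K, hK⟩)
  · obtain ⟨k, hk, hk2⟩ := H.2.2.2
    refine ⟨cls hk, (cls hk).2, ?_⟩
    filter_upwards [cls_ae H.1, cls_ae hk, MemLp.coeFn_toLp H.2.1, ae_restrict_mem ho.measurableSet]
      with z h1 h2 h3 h4
    rw [h1, h2, h3, hk2 z h4]

theorem of_value {φ : (Fin n → ℂ) → ℂ} {G : bergman Ω}
    {H : Lp ℂ 2 (volume.restrict Ω)}
    (hGH : IsHankelValue Ω φ (G : Lp ℂ 2 (volume.restrict Ω)) H) :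
    ∃ h, IsHankel Ω φ (rep G) h ∧ H =ᵐ[volume.restrict Ω] h := by
  obtain ⟨-, hH, K, hK, hae⟩ := hGH
  set k := rep ⟨K, hK⟩ with hk
  have hkae := rep_ae ⟨K, hK⟩
  have hHh : H =ᵐ[volume.restrict Ω] fun z => φ z * rep G z - k z := by
    filter_upwards [hae, hkae, rep_ae G] with z h1 h2 h3
    rw [← h3, h1, hk, ← h2]
    ring
  refine ⟨fun z => φ z * rep G z - k z, ⟨rep_b G, (memLp_congr_ae hHh).mp (Lp.memLp H), ?_, ?_⟩, hHh⟩
  · intro q hq
    rw [← inner_Lp (cls_ae hq) hHh]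
    exact (Submodule.mem_orthogonal _ _).mp hH _ (cls hq).2
  · exact ⟨k, rep_b _, fun z _ => by ring⟩

theorem IsBergman.add {g g' : (Fin n → ℂ) → ℂ} (hg : IsBergman Ω g) (hg' : IsBergman Ω g') :
    IsBergman Ω (fun w => g w + g' w) := ⟨hg.1.add hg'.1, MemLp.add hg.2 hg'.2⟩

theorem IsBergman.mul_const {g : (Fin n → ℂ) → ℂ} (hg : IsBergman Ω g) (c : ℂ) :
    IsBergman Ω (fun w => c * g w) := ⟨hg.1.const_mul c, MemLp.const_mul hg.2 c⟩

theorem ae_zero_of_nsq {h : (Fin n → ℂ) → ℂ} (hh : IsL2 Ω h) (h0 : nsq Ω h ≤ 0) :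
    ∀ᵐ z ∂volume.restrict Ω, h z = 0 := by
  have hint : Integrable (fun z => ‖h z‖ ^ 2) (volume.restrict Ω) :=
    (memLp_two_iff_integrable_sq_norm hh.1).mp hh
  have h1 : nsq Ω h = 0 := le_antisymm h0 (integral_nonneg (fun z => by positivity))
  have h2 := (integral_eq_zero_iff_of_nonneg (fun z => by positivity) hint).mp h1
  filter_upwards [h2] with z hz
  have : ‖h z‖ ^ 2 = 0 := hz
  simpa using this

theorem nsq_zero_of_ae {h : (Fin n → ℂ) → ℂ} (h0 : ∀ᵐ z ∂volume.restrict Ω, h z = 0) :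
    nsq Ω h = 0 := by
  have : nsq Ω h = nsq Ω (fun _ => 0) := nsq_congr h0
  rw [this]
  unfold nsq
  simp

theorem IsOperator.congr {S : ((Fin n → ℂ) → ℂ) → (Fin n → ℂ) → ℂ} (hS : IsOperator Ω S)
    {g g' : (Fin n → ℂ) → ℂ} (hg : IsBergman Ω g) (hg' : IsBergman Ω g')
    (h : g =ᵐ[volume.restrict Ω] g') : S g =ᵐ[volume.restrict Ω] S g' := by
  obtain ⟨h1, h2, h3, C, hC⟩ := hS
  have hm : IsBergman Ω (fun w => (-1) * g' w) := hg'.mul_const (-1)
  have hd : IsBergman Ω (fun w => g w + (-1) * g' w) := hg.add hm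
  have e1 := h2 g (fun w => (-1) * g' w) hg hm
  have e2 := h3 g' hg' (-1)
  have hz : nsq Ω (fun w => g w + (-1) * g' w) = 0 := by
    apply nsq_zero_of_ae
    filter_upwards [h] with z hz
    rw [hz]; ring
  have h4 := hC _ hd
  rw [hz, mul_zero] at h4
  have h5 := ae_zero_of_nsq (h1 _ hd) h4
  filter_upwards [e1, e2, h5] with z a1 a2 a3
  rw [a3, a2] at a1
  linear_combination -a1

theorem final (hn : 2 ≤ n) (ho : IsOpen Ω) (hc : IsConnected Ω)
    (hb : Bornology.IsBounded Ω) (hR : IsReinhardt Ω) {f : (Fin n → ℂ) → ℂ}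
    (hf : DifferentiableOn ℂ f Ω) (hHS : IsHilbertSchmidt Ω (fun z => conj (f z)))
    {g h : (Fin n → ℂ) → ℂ} (hgh : IsHankel Ω (fun z => conj (f z)) g h) :
    ∀ᵐ z ∂volume.restrict Ω, h z = 0 := by
  obtain ⟨hdense, S, hSop, hSH, ι, e, he, hsum⟩ := hHS
  obtain ⟨C, hC⟩ := hSop.2.2.2
  have hmem : ∀ G : bergman Ω, MemLp (S (rep G)) 2 (volume.restrict Ω) :=
    fun G => hSop.1 _ (rep_b G)
  -- the operator
  set T0 : bergman Ω →ₗ[ℂ] Lp ℂ 2 (volume.restrict Ω) :=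
    { toFun := fun G => MemLp.toLp _ (hmem G)
      map_add' := by
        intro G G'
        apply Lp.ext
        have h1 : rep (G + G') =ᵐ[volume.restrict Ω] fun w => rep G w + rep G' w := by
          have h0 := Lp.coeFn_add (G : Lp ℂ 2 (volume.restrict Ω)) (G' : Lp ℂ 2 (volume.restrict Ω))
          filter_upwards [rep_ae (G + G'), rep_ae G, rep_ae G', h0] with z a1 a2 a3 a4
          rw [← a1, ← a2, ← a3]
          exact a4
        have h2 := hSop.congr (rep_b _) ((rep_b G).add (rep_b G')) h1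
        filter_upwards [MemLp.coeFn_toLp (hmem (G + G')), MemLp.coeFn_toLp (hmem G),
          MemLp.coeFn_toLp (hmem G'), h2, hSop.2.1 _ _ (rep_b G) (rep_b G'),
          Lp.coeFn_add (MemLp.toLp _ (hmem G)) (MemLp.toLp _ (hmem G'))] with z a1 a2 a3 a4 a5 a6
        rw [a1, a6, Pi.add_apply, a2, a3, a4, a5]
      map_smul' := by
        intro c G
        apply Lp.ext
        have h1 : rep (c • G) =ᵐ[volume.restrict Ω] fun w => c * rep G w := by
          have h0 := Lp.coeFn_smul c (G : Lp ℂ 2 (volume.restrict Ω))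
          filter_upwards [rep_ae (c • G), rep_ae G, h0] with z a1 a2 a4
          rw [← a1, ← a2]
          exact a4
        have h2 := hSop.congr (rep_b _) ((rep_b G).mul_const c) h1
        simp only [RingHom.id_apply]
        filter_upwards [MemLp.coeFn_toLp (hmem (c • G)), MemLp.coeFn_toLp (hmem G),
          h2, hSop.2.2.1 _ (rep_b G) c,
          Lp.coeFn_smul c (MemLp.toLp _ (hmem G))] with z a1 a2 a4 a5 a6
        rw [a1, a6, Pi.smul_apply, a2, a4, a5, smul_eq_mul] } with hT0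
  have hT0ap : ∀ G, T0 G =ᵐ[volume.restrict Ω] S (rep G) := fun G => MemLp.coeFn_toLp (hmem G)
  have hbound : ∀ G, ‖T0 G‖ ≤ √|C| * ‖G‖ := by
    intro G
    have h1 : ‖T0 G‖ ^ 2 ≤ |C| * ‖G‖ ^ 2 := by
      rw [norm_Lp (hT0ap G)]
      have h2 : ‖G‖ ^ 2 = nsq Ω (rep G) := norm_Lp (rep_ae G)
      rw [h2]
      have h3 : 0 ≤ nsq Ω (rep G) := h2 ▸ sq_nonneg _
      exact (hC _ (rep_b G)).trans (mul_le_mul_of_nonneg_right (le_abs_self C) h3)
    have h2 : ‖T0 G‖ ^ 2 ≤ (√|C| * ‖G‖) ^ 2 := by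
      rw [mul_pow, Real.sq_sqrt (abs_nonneg C)]
      exact h1
    exact (sq_le_sq₀ (norm_nonneg _) (by positivity)).mp h2
  set T := T0.mkContinuous (√|C|) hbound with hT
  have hTap : ∀ G, T G =ᵐ[volume.restrict Ω] S (rep G) := hT0ap
  have hTcls : ∀ {g : (Fin n → ℂ) → ℂ} (hg : IsBergman Ω g),
      T (cls hg) =ᵐ[volume.restrict Ω] S g := by
    intro g hg
    have h1 : rep (cls hg) =ᵐ[volume.restrict Ω] g := by
      filter_upwards [rep_ae (cls hg), cls_ae hg] with z a1 a2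
      rw [← a1, a2]
    exact (hTap _).trans (hSop.congr (rep_b _) hg h1)
  have hTS : ∀ (G : bergman Ω) (H : Lp ℂ 2 (volume.restrict Ω)),
      IsHankelValue Ω (fun z => conj (f z)) (G : Lp ℂ 2 (volume.restrict Ω)) H → T G = H := by
    intro G H hGH
    obtain ⟨h', hh', hae⟩ := of_value hGH
    apply Lp.ext
    filter_upwards [hTap G, hae, hSH _ _ hh'] with z a1 a2 a3
    rw [a1, a2, a3]
  have hd : Dense {G : bergman Ω | ∃ H, IsHankelValue Ω (fun z => conj (f z))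
      (G : Lp ℂ 2 (volume.restrict Ω)) H} := by
    rw [Metric.dense_iff]
    intro G r hr
    obtain ⟨g', h', hgh', hlt⟩ := hdense (rep G) (rep_b G) (r ^ 2) (by positivity)
    refine ⟨cls hgh'.1, ?_, _, value_of ho hgh'⟩
    rw [mem_ball, dist_comm, dist_eq_norm]
    have h1 : ‖G - cls hgh'.1‖ ^ 2 = nsq Ω (fun z => rep G z - g' z) := by
      apply norm_Lp (H := ((G - cls hgh'.1 : bergman Ω) : Lp ℂ 2 (volume.restrict Ω)))
      have h0 := Lp.coeFn_sub (G : Lp ℂ 2 (volume.restrict Ω))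
        ((cls hgh'.1 : bergman Ω) : Lp ℂ 2 (volume.restrict Ω))
      filter_upwards [rep_ae G, cls_ae hgh'.1, h0] with z a1 a2 a3
      rw [← a1, ← a2]
      exact a3
    rw [← h1] at hlt
    exact lt_of_pow_lt_pow_left₀ 2 hr.le hlt
  -- the orthonormal basis
  set b : ι → bergman Ω := fun i => cls (he.1 i) with hbdef
  have hborth : Orthonormal ℂ b := by
    constructor
    · intro i
      have h1 : ‖b i‖ ^ 2 = nsq Ω (e i) :=
        norm_Lp (H := ((b i : bergman Ω) : Lp ℂ 2 (volume.restrict Ω))) (cls_ae (he.1 i))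
      have h2 : inner ℂ ((b i : bergman Ω) : Lp ℂ 2 (volume.restrict Ω)) (b i : Lp ℂ 2 (volume.restrict Ω))
          = (1 : ℂ) := by
        rw [inner_Lp (cls_ae (he.1 i)) (cls_ae (he.1 i))]
        exact he.2.1 i
      have h3 : ‖b i‖ ^ 2 = 1 := by
        have h4 := inner_self_eq_norm_sq (𝕜 := ℂ) ((b i : bergman Ω) : Lp ℂ 2 (volume.restrict Ω))
        rw [h2] at h4
        have h5 : ‖b i‖ = ‖((b i : bergman Ω) : Lp ℂ 2 (volume.restrict Ω))‖ := rfl
        rw [h5, ← h4]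
        simp
      have h6 : 0 ≤ ‖b i‖ := norm_nonneg _
      nlinarith
    · intro i j hij
      show inner ℂ ((b i : bergman Ω) : Lp ℂ 2 (volume.restrict Ω)) (b j : Lp ℂ 2 (volume.restrict Ω))
        = (0 : ℂ)
      rw [inner_Lp (cls_ae (he.1 i)) (cls_ae (he.1 j))]
      exact he.2.2.1 i j hij
  have hPars : ∀ x : bergman Ω, HasSum (fun i => ‖inner ℂ (b i) x‖ ^ 2) (‖x‖ ^ 2) := by
    intro x
    have h1 := he.2.2.2 (rep x) (rep_b x)
    have h2 : ‖x‖ ^ 2 = nsq Ω (rep x) :=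
      norm_Lp (H := (x : Lp ℂ 2 (volume.restrict Ω))) (rep_ae x)
    rw [h2]
    have h3 : (fun i => ‖inner ℂ (b i) x‖ ^ 2) = fun i => ‖ip Ω (e i) (rep x)‖ ^ 2 := by
      funext i
      have h4 : inner ℂ (b i) x = ip Ω (e i) (rep x) := inner_Lp (cls_ae (he.1 i)) (rep_ae x)
      rw [h4]
    rw [h3]
    exact h1
  have hsumT : Summable fun i => ‖T (b i)‖ ^ 2 := by
    refine hsum.congr (fun i => ?_)
    rw [norm_Lp (hTcls (he.1 i))]
  have hB : ∀ (F : Finset (Fin n → ℤ)) (e : F → bergman Ω), Orthonormal ℂ e →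
      ∑ k, ‖T (e k)‖ ^ 2 ≤ ∑' i, ‖T (b i)‖ ^ 2 := fun F e' he' =>
    sum_le_of_parseval hborth hPars T hsumT e' he'
  have hfin := main' hn ho hc hb hR hf hd T hTS hB (value_of ho hgh)
  have h1 := MemLp.coeFn_toLp hgh.2.1
  rw [hfin] at h1
  filter_upwards [h1, Lp.coeFn_zero ℂ 2 (volume.restrict Ω)] with z a1 a2
  rw [← a1, a2]
  rfl

end

end Pool.Agent.V1171.HSH
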